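import Pool.Agent.Helper39.TW.Lib

/-! The top level. -/

namespace TwoWalk

open Finset

theorem top_dbl_eq {V : Type} [DecidableEq V] [Fintype V] {S : Finset V} {f g : V → ℕ}
    (h : ∀ v, g v = 2 ↔ v ∈ S ∧ f v = 2) : dbl univ g = dbl S f := by
  unfold dbl
  congr 1
  ext v
  simp [h v]

theorem top_dbl_le {V : Type} [DecidableEq V] [Fintype V] {S : Finset V} {f g : V → ℕ} {x : V}
    (h : ∀ v, g v = 2 → (v ∈ S ∧ f v = 2) ∨ v = x) : dbl univ g ≤ dbl S f + 1 := by
  unfold dbl
  have h1 : (univ.filter (fun v => g v = 2)) ⊆ insert x (S.filter (fun v => f v = 2)) := by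
    intro v hv
    rcases h v (mem_filter.1 hv).2 with h2 | h2
    · exact mem_insert_of_mem (mem_filter.2 h2)
    · rw [h2]; exact mem_insert_self _ _
  exact (card_le_card h1).trans (card_insert_le _ _)

theorem st_TOP (hM : ST_MAIN) (h0 : ST_W0) (h5 : ST_W5) (h6 : ST_W6) : ST_TOP := by
  intro V _ _ G hcard h3 hK
  have hne : (univ : Finset V).Nonempty := by
    rw [← card_pos, card_univ]; omega
  obtain ⟨r, -⟩ := hne
  -- two neighbours of r
  obtain ⟨x, hx⟩ : ∃ x, G.Adj r x := by
    have h1 := (h3 ∅ (by simp)).2 {r} (subset_compl_comm.1 (by simp)) (singleton_nonempty r) (by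
      intro h
      have h2 := congrArg card h
      rw [card_singleton, compl_empty, card_univ] at h2
      omega)
    obtain ⟨a, ha, b, _, hab⟩ := h1
    rw [mem_singleton] at ha
    exact ⟨b, ha ▸ hab⟩
  obtain ⟨y, hyx, hy⟩ : ∃ y, y ≠ x ∧ G.Adj r y := by
    have hrx : r ≠ x := hx.ne
    have h1 := (h3 {x} (by simp)).2 {r} (by
      intro v hv
      rw [mem_singleton] at hv
      rw [mem_compl, mem_singleton, hv]
      exact hrx) (singleton_nonempty r) (by
      intro h
      have h2 := congrArg card h
      rw [card_singleton, card_compl, card_singleton] at h2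
      omega)
    obtain ⟨a, ha, b, hb, hab⟩ := h1
    rw [mem_singleton] at ha
    rw [mem_sdiff, mem_compl, mem_singleton] at hb
    exact ⟨b, hb.1, ha ▸ hab⟩
  have hxr : x ≠ r := hx.ne'
  have hyr : y ≠ r := hy.ne'
  set S : Finset V := {r}ᶜ with hS
  have hrS : r ∉ S := by simp [hS]
  have hmS : ∀ v, v ∈ S ↔ v ≠ r := by intro v; simp [hS]
  have hxS : x ∈ S := (hmS x).2 hxr
  have hyS : y ∈ S := (hmS y).2 hyr
  have hSc : S.card + 1 = Fintype.card V := by
    rw [hS, card_compl, card_singleton]; omega
  have hconn : Conn G S := h3 {r} (by simp)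
  have hch : Ch G S x y := by
    refine ⟨hconn, hxS, hyS, fun z hz D hD => ?_⟩
    have hzr : z ≠ r := (hmS z).1 hz
    have hE : S.erase z = ({r, z} : Finset V)ᶜ := by
      ext v
      simp only [mem_erase, hmS, mem_compl, mem_insert, mem_singleton]
      tauto
    have hC : Conn G (S.erase z) := by
      rw [hE]
      exact h3 _ (by rw [card_pair hzr.symm])
    have hDe : D = S.erase z := by
      by_contra hn
      exact hD.2.2 (hC.2 D hD.1 hD.2.1.1 hn)
    by_cases hxz : x = z
    · right
      rw [hDe]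
      exact mem_erase.2 ⟨fun h => hyx (h.trans hxz.symm), hyS⟩
    · left
      rw [hDe]
      exact mem_erase.2 ⟨hxz, hxS⟩
  have hScc : Conn G Sᶜ := by
    rw [hS, compl_compl]
    exact conn_singleton r
  obtain ⟨h, p, q, hh, hp, _, ch, op, _, hhx, hhy, hpy, _, hle, _⟩ :=
    (hM V G S x y h3 hK hScc hch ⟨hxS, r, hrS, hx.symm⟩ ⟨hyS, r, hrS, hy.symm⟩ hyx.symm).1
  by_cases hc : 3 * dbl S p + 3 ≤ Fintype.card V
  · refine ⟨fun w => p w + if w = r then 1 else 0, ⟨fun v _ => ?_, fun v hv => ?_⟩,
      h6 V G x y r p op hx hy, ?_⟩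
    · by_cases hv : v = r
      · left; simp [hv, hp.2 r hrS]
      · simpa [hv] using hp.1 v ((hmS v).2 hv)
    · exact absurd (mem_univ v) hv
    · have h1 : dbl univ (fun w => p w + if w = r then 1 else 0) = dbl S p := by
        refine top_dbl_eq fun v => ?_
        by_cases hv : v = r
        · simp [hv, hp.2 r hrS, hrS]
        · simp [hv, hmS]
      rw [h1]
      omega
  · have c1 : CW G (fun w => (if w = x then 1 else 0) + if w = r then 1 else 0) :=
      h6 V G x x r _ (h0 V G x) hx hx
    have c2 := h5 V G x h (fun w => (if w = x then 1 else 0) + if w = r then 1 else 0) ch c1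
      (by rw [hhx]; exact one_ne_zero) (by simp)
    refine ⟨_, ⟨fun v _ => ?_, fun v hv => ?_⟩, c2, ?_⟩
    · by_cases hv : v = r
      · left; simp [hv, hh.2 r hrS, hxr.symm]
      · by_cases hvx : v = x
        · right; simp [hvx, hhx, hxr]
        · simpa [hv, hvx] using hh.1 v ((hmS v).2 hv)
    · exact absurd (mem_univ v) hv
    · have h1 : dbl univ (fun v => h v + ((if v = x then 1 else 0) + if v = r then 1 else 0)) ≤
          dbl S h + 1 := by
        refine top_dbl_le (x := x) fun v hv => ?_
        by_cases hvx : v = x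
        · exact Or.inr hvx
        · left
          by_cases hvr : v = r
          · simp [hvr, hh.2 r hrS, hxr.symm] at hv
          · refine ⟨(hmS v).2 hvr, ?_⟩
            simpa [hvx, hvr] using hv
      omega

end TwoWalk
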