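import Pool.Agent.Helper39.TW.Stmts

/-! Walk calculus. -/

namespace TwoWalk

open SimpleGraph

theorem w_count_tail {V : Type} [DecidableEq V] {G : SimpleGraph V} {x y : V} (w : G.Walk x y)
    (v : V) : w.support.count v = (if v = x then 1 else 0) + w.support.tail.count v := by
  conv_lhs => rw [← w.cons_tail_support]
  rw [List.count_cons]
  by_cases h : v = x
  · subst h; simp [add_comm]
  · have h' : ¬ x = v := fun e => h e.symm
    simp [h, h']

theorem st_W0 : ST_W0 := by
  intro V _ G x
  refine ⟨Walk.nil, fun v => ?_⟩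
  rw [w_count_tail]
  simp

theorem st_W1 : ST_W1 := by
  intro V _ G x z z' y f g hf hzz hg
  obtain ⟨w₁, h₁⟩ := hf
  obtain ⟨w₂, h₂⟩ := hg
  refine ⟨w₁.append (Walk.cons hzz w₂), fun v => ?_⟩
  rw [Walk.support_append, Walk.support_cons, List.tail_cons, List.count_append, h₁, h₂]

theorem st_W2 : ST_W2 := by
  intro V _ G x z y f g hf hg
  obtain ⟨w₁, h₁⟩ := hf
  obtain ⟨w₂, h₂⟩ := hg
  refine ⟨w₁.append w₂, fun v => ?_⟩
  rw [Walk.support_append, List.count_append, h₁]
  have h3 := w_count_tail w₂ v
  rw [h₂] at h3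
  simp only
  omega

theorem st_W3 : ST_W3 := by
  intro V _ G x y f hf
  obtain ⟨w₁, h₁⟩ := hf
  refine ⟨w₁.reverse, fun v => ?_⟩
  rw [Walk.support_reverse, List.count_reverse, h₁]

/-- a closed walk can be started at any of its vertices -/
theorem w_rot {V : Type} [DecidableEq V] {G : SimpleGraph V} {g : V → ℕ} {z : V}
    (h : CW G g) (hz : g z ≠ 0) :
    ∃ c : G.Walk z z, ∀ v, c.support.tail.count v = g v := by
  obtain ⟨x, w, hw⟩ := h
  have hz' : z ∈ w.support := by
    have h1 : 0 < w.support.tail.count z := by rw [hw]; omega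
    exact List.mem_of_mem_tail (List.count_pos_iff.mp h1)
  refine ⟨w.rotate z hz', fun v => ?_⟩
  rw [← hw v]
  exact (w.support_rotate z hz').perm.count_eq v

theorem st_W4 : ST_W4 := by
  intro V _ G x y z f g hf hg hfz hgz
  obtain ⟨c, hc⟩ := w_rot hg hgz
  obtain ⟨w, hw⟩ := hf
  have hz : z ∈ w.support := by
    have h1 : 0 < w.support.count z := by rw [hw]; omega
    exact List.count_pos_iff.mp h1
  refine ⟨(w.takeUntil z hz).append (c.append (w.dropUntil z hz)), fun v => ?_⟩
  have h2 : w.support = (w.takeUntil z hz).support ++ (w.dropUntil z hz).support.tail := by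
    conv_lhs => rw [← w.take_spec hz]
    rw [Walk.support_append]
  have h3 : w.support.count v = f v := hw v
  rw [h2, List.count_append] at h3
  rw [Walk.support_append, Walk.tail_support_append, List.count_append, List.count_append, hc]
  simp only
  omega

theorem st_W5 : ST_W5 := by
  intro V _ G z f g hf hg hfz hgz
  obtain ⟨c, hc⟩ := w_rot hf hfz
  obtain ⟨d, hd⟩ := w_rot hg hgz
  refine ⟨z, c.append d, fun v => ?_⟩
  rw [Walk.tail_support_append, List.count_append, hc, hd]

theorem st_W6 : ST_W6 := by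
  intro V _ G u v t f hf hu hv
  obtain ⟨w, hw⟩ := hf
  refine ⟨t, Walk.cons hu (w.append (Walk.cons hv.symm Walk.nil)), fun a => ?_⟩
  rw [Walk.support_cons, List.tail_cons, Walk.support_append, Walk.support_cons, List.tail_cons,
    Walk.support_nil, List.count_append, hw]
  congr 1
  by_cases h : a = t
  · subst h; simp
  · have h' : ¬ t = a := fun e => h e.symm
    simp [h, h']

end TwoWalk
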