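import Pool.Agent.Helper47.TW.WFun
import Pool.Agent.Helper40.JZ.Stmts

/-!
The kernel of a joining of two powers of a transformation of the torus (MP_7a8f48_an, towers).
-/

open Finset Filter MeasureTheory Topology
open scoped ComplexConjugate InnerProductSpace BoundedContinuousFunction

namespace Pool.Agent.Helper47.TW

open Pool.Agent.Helper16.AZ (T E Op mm)
open Pool.Agent.Helper16.BZ (co Wk EE EQ EE_shift EE_norm Wk_norm)
open Pool.Agent.Helper16.MD (PB Rich)
open Pool.Agent.Helper40.DZ (RI UR SK EE_RI Wk_RI)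

variable {R d : ℕ}

/-- joinings of the powers `p` and `q` of `S` -/
structure Jn (S : T R → T R) (p q : ℕ) (lam : Measure (T R × T R)) : Prop where
  prob : IsProbabilityMeasure lam
  fst : lam.map Prod.fst = mm R
  snd : lam.map Prod.snd = mm R
  inv : MeasurePreserving (Prod.map S^[p] S^[q]) lam lam

/-- the powers are uniquely ergodic -/
theorem EQ.unique {S : T R → T R} (hS : Continuous S) (hE : EQ S (mm R)) {p : ℕ} (hp : 1 ≤ p)
    (ν : Measure (T R)) (hν : IsProbabilityMeasure ν) (hi : MeasurePreserving S^[p] ν ν) :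
    ν = mm R := by
  refine ext_of_forall_integral_eq_of_IsFiniteMeasure fun f => ?_
  let F : T R → ℂ := fun x => ((f x : ℝ) : ℂ)
  have hF : Continuous F := Complex.continuous_ofReal.comp f.continuous
  have h1 := hE p hp F hF
  have hb : ∀ x, ‖F x‖ ≤ ‖f‖ := fun x => by
    show ‖((f x : ℝ) : ℂ)‖ ≤ _
    rw [Complex.norm_real]
    exact f.norm_coe_le_norm x
  have h2 : Tendsto (fun N : ℕ => ∫ x, (∑ n ∈ range N, F (S^[p * n] x)) / (N : ℂ) ∂ν) atTop
      (𝓝 (∫ _x, (∫ y, F y ∂(mm R)) ∂ν)) := by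
    refine tendsto_integral_of_dominated_convergence (fun _ => ‖f‖) (fun N => ?_)
      (integrable_const _) (fun N => Eventually.of_forall fun x => ?_)
      (Eventually.of_forall fun x => h1 x)
    · refine Continuous.aestronglyMeasurable ?_
      refine Continuous.div_const (continuous_finsetSum _ fun n _ => ?_) _
      exact hF.comp (hS.iterate _)
    · rw [norm_div, Complex.norm_natCast]
      rcases Nat.eq_zero_or_pos N with rfl | hN
      · simp
      · have hN' : (0 : ℝ) < N := by exact_mod_cast hN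
        rw [div_le_iff₀ hN']
        refine (norm_sum_le _ _).trans ((Finset.sum_le_sum fun n _ => hb _).trans ?_)
        rw [Finset.sum_const, card_range, nsmul_eq_mul, mul_comm]
  have h3 : ∀ n : ℕ, ∫ x, F (S^[p * n] x) ∂ν = ∫ x, F x ∂ν := by
    intro n
    have h4 : MeasurePreserving S^[p * n] ν ν := by
      rw [Function.iterate_mul]
      exact hi.iterate n
    rw [← integral_map (μ := ν) (φ := S^[p * n]) h4.measurable.aemeasurable
      hF.aestronglyMeasurable, h4.map_eq]
  have h5 : ∀ᶠ N : ℕ in atTop, ∫ x, (∑ n ∈ range N, F (S^[p * n] x)) / (N : ℂ) ∂ν =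
      ∫ x, F x ∂ν := by
    filter_upwards [eventually_gt_atTop 0] with N hN
    have hN' : (N : ℂ) ≠ 0 := by exact_mod_cast hN.ne'
    rw [integral_div, integral_finsetSum]
    · simp only [h3]
      rw [Finset.sum_const, card_range, nsmul_eq_mul, mul_div_assoc, mul_comm,
        div_mul_cancel₀ _ hN']
    · intro n _
      refine Integrable.of_bound (C := ‖f‖) ?_ (Eventually.of_forall fun x => hb _)
      exact (hF.comp (hS.iterate _)).aestronglyMeasurable
  have h6 := tendsto_nhds_unique (h2.congr' h5) tendsto_const_nhds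
  rw [integral_const, probReal_univ, one_smul] at h6
  have h7 : ∀ μ : Measure (T R), ∫ x, F x ∂μ = ((∫ x, f x ∂μ : ℝ) : ℂ) := fun μ => integral_ofReal
  rw [h7, h7] at h6
  exact_mod_cast h6.symm

/-- all invariant measures of the product are joinings -/
theorem Jn.of_inv {S : T R → T R} (hS : Continuous S) (hE : EQ S (mm R)) {p q : ℕ} (hp : 1 ≤ p)
    (hq : 1 ≤ q) (lam : Measure (T R × T R)) (hl : IsProbabilityMeasure lam)
    (hi : MeasurePreserving (Prod.map S^[p] S^[q]) lam lam) : Jn S p q lam := by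
  refine ⟨hl, ?_, ?_, hi⟩
  · refine EQ.unique hS hE hp _ (Measure.isProbabilityMeasure_map measurable_fst.aemeasurable) ?_
    refine ⟨(hS.iterate p).measurable, ?_⟩
    rw [Measure.map_map (hS.iterate p).measurable measurable_fst]
    conv_rhs => rw [← hi.map_eq, Measure.map_map measurable_fst hi.measurable]
    rfl
  · refine EQ.unique hS hE hq _ (Measure.isProbabilityMeasure_map measurable_snd.aemeasurable) ?_
    refine ⟨(hS.iterate q).measurable, ?_⟩
    rw [Measure.map_map (hS.iterate q).measurable measurable_snd]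
    conv_rhs => rw [← hi.map_eq, Measure.map_map measurable_snd hi.measurable]
    rfl

/-- the product of the inner products at the two points -/
noncomputable def pk (S : T R → T R) (φ : T R → Op d) (c : T R → E d) (p q h h' : ℕ)
    (z : T R × T R) : ℂ :=
  EE S φ c (p * h) (p * h') z.1 * conj (EE S φ c (q * h) (q * h') z.2)

/-- the kernel of a joining -/
noncomputable def Nk (S : T R → T R) (φ : T R → Op d) (c : T R → E d) (p q : ℕ)
    (lam : Measure (T R × T R)) (h h' : ℕ) : ℝ := (∫ z, pk S φ c p q h h' z ∂lam).re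

/-- the tensor product of two vectors and its conjugate -/
noncomputable def tv (z : E d × E d) : EuclideanSpace ℂ (Bool × (Fin d × Fin d)) :=
  WithLp.toLp 2 fun t => ((Real.sqrt 2)⁻¹ : ℝ) *
    (if t.1 then conj (z.1 t.2.1) * z.2 t.2.2 else z.1 t.2.1 * conj (z.2 t.2.2))

theorem tv_cont : Continuous (tv (d := d)) := by
  unfold tv
  refine (PiLp.continuous_toLp 2 _).comp (continuous_pi fun t => ?_)
  refine continuous_const.mul ?_
  split_ifs <;> fun_prop

theorem tv_inner (A B A' B' : E d) : inner ℂ (tv (A, B)) (tv (A', B')) =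
    (((inner ℂ A A' : ℂ) * conj (inner ℂ B B' : ℂ)).re : ℂ) := by
  have h2 : (((Real.sqrt 2)⁻¹ : ℝ) : ℂ) * (((Real.sqrt 2)⁻¹ : ℝ) : ℂ) = 1 / 2 := by
    rw [← Complex.ofReal_mul, ← mul_inv, Real.mul_self_sqrt (by norm_num)]
    norm_num
  have e1 : (inner ℂ A A' : ℂ) * conj (inner ℂ B B' : ℂ) =
      ∑ t : Fin d × Fin d, (A' t.1 * conj (A t.1)) * (B t.2 * conj (B' t.2)) := by
    rw [PiLp.inner_apply, PiLp.inner_apply, map_sum, Finset.sum_mul_sum, Fintype.sum_prod_type]
    refine Finset.sum_congr rfl fun a _ => Finset.sum_congr rfl fun b _ => ?_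
    simp only [RCLike.inner_apply, map_mul, Complex.conj_conj]
    ring
  rw [Complex.re_eq_add_conj, e1, map_sum, PiLp.inner_apply, Fintype.sum_prod_type,
    Fintype.sum_bool]
  simp only [tv, RCLike.inner_apply, map_mul, Complex.conj_conj, Complex.conj_ofReal, if_true,
    Bool.false_eq_true, if_false]
  rw [← Finset.sum_add_distrib, ← Finset.sum_add_distrib, Finset.sum_div]
  refine Finset.sum_congr rfl fun t _ => ?_
  linear_combination ((A' t.1 * conj (A t.1)) * (B t.2 * conj (B' t.2)) +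
    (conj (A' t.1) * A t.1) * (conj (B t.2) * B' t.2)) * h2

section kernel

variable {S : T R → T R} {φ : T R → Op d} {c : T R → E d} {p q : ℕ} {lam : Measure (T R × T R)}

theorem RI.fst {V : Type} [NormedAddCommGroup V] {F : T R → V} (hF : RI F)
    (hl : lam.map Prod.fst = mm R) : AEStronglyMeasurable (fun z => F z.1) lam := by
  have h1 : AEStronglyMeasurable F (lam.map Prod.fst) := by
    rw [hl]
    exact hF.aesm
  exact h1.comp_measurable measurable_fst

theorem RI.snd {V : Type} [NormedAddCommGroup V] {F : T R → V} (hF : RI F)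
    (hl : lam.map Prod.snd = mm R) : AEStronglyMeasurable (fun z => F z.2) lam := by
  have h1 : AEStronglyMeasurable F (lam.map Prod.snd) := by
    rw [hl]
    exact hF.aesm
  exact h1.comp_measurable measurable_snd

theorem pk_aesm (hS : Continuous S) (hm : MeasurePreserving S (mm R) (mm R)) (hφ : UR φ)
    (hc : Continuous c) (h1 : lam.map Prod.fst = mm R) (h2 : lam.map Prod.snd = mm R)
    (h h' : ℕ) : AEStronglyMeasurable (pk S φ c p q h h') lam :=
  (RI.fst (EE_RI hS hm hφ (RI.of_continuous hc) _ _) h1).mul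
    (RI.snd (EE_RI hS hm hφ (RI.of_continuous hc) _ _).conj h2)

theorem pk_norm (hφ : UR φ) (V : ℝ) (hV : ∀ x, ‖c x‖ ≤ V) (h h' : ℕ) (z : T R × T R) :
    ‖pk S φ c p q h h' z‖ ≤ V ^ 2 * V ^ 2 := by
  rw [pk, norm_mul, RCLike.norm_conj]
  exact mul_le_mul (EE_norm S φ c hφ.2 V hV _ _ _) (EE_norm S φ c hφ.2 V hV _ _ _)
    (norm_nonneg _) (sq_nonneg _)

theorem pk_shift (hφ : UR φ) (h h' : ℕ) (z : T R × T R) :
    pk S φ c p q (h + 1) (h' + 1) z = pk S φ c p q h h' (Prod.map S^[p] S^[q] z) := by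
  have e : ∀ (m k k' : ℕ) (x : T R), EE S φ c (m * (k + 1)) (m * (k' + 1)) x =
      EE S φ c (m * k) (m * k') (S^[m] x) := by
    intro m k k' x
    rw [mul_add, mul_add, mul_one]
    exact EE_shift S φ c hφ.2 _ _ _ x
  rw [pk, pk, e, e]
  rfl

theorem pk_int (hS : Continuous S) (hm : MeasurePreserving S (mm R) (mm R)) (hφ : UR φ)
    (hc : Continuous c) (hl : Jn S p q lam) (h h' : ℕ) : Integrable (pk S φ c p q h h') lam := by
  have := hl.prob
  obtain ⟨V, hV⟩ := (RI.of_continuous hc).2
  exact Integrable.of_bound (pk_aesm hS hm hφ hc hl.fst hl.snd h h') (V ^ 2 * V ^ 2)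
    (Eventually.of_forall fun z => pk_norm hφ V hV h h' z)

theorem Nk_SK (hS : Continuous S) (hm : MeasurePreserving S (mm R) (mm R)) (hφ : UR φ)
    (hc : Continuous c) (hl : Jn S p q lam) : SK (Nk S φ c p q lam) := by
  have := hl.prob
  obtain ⟨V, hV⟩ := (RI.of_continuous hc).2
  let w : ℕ → T R × T R → EuclideanSpace ℂ (Bool × (Fin d × Fin d)) := fun h z =>
    tv (Wk S φ (p * h) c z.1, Wk S φ (q * h) c z.2)
  have hwm : ∀ h, AEStronglyMeasurable (w h) lam := fun h =>
    tv_cont.comp_aestronglyMeasurable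
      ((RI.fst (Wk_RI hS hm hφ (RI.of_continuous hc) _) hl.fst).prodMk
        (RI.snd (Wk_RI hS hm hφ (RI.of_continuous hc) _) hl.snd))
  have hwi : ∀ h h' z, (inner ℂ (w h z) (w h' z) : ℂ) = ((pk S φ c p q h h' z).re : ℂ) :=
    fun h h' z => tv_inner _ _ _ _
  have hwn : ∀ h z, ‖w h z‖ ≤ V ^ 2 := by
    intro h z
    have h1 : ‖w h z‖ ^ 2 ≤ V ^ 2 * V ^ 2 := by
      have h2 := hwi h h z
      rw [inner_self_eq_norm_sq_to_K] at h2
      have h3 : ‖w h z‖ ^ 2 = (pk S φ c p q h h z).re := by
        have h5 := congrArg Complex.re h2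
        rw [Complex.ofReal_re] at h5
        rw [← h5]
        norm_cast
      rw [h3]
      exact (Complex.re_le_norm _).trans (pk_norm hφ V hV h h z)
    have h4 : (0 : ℝ) ≤ V ^ 2 := sq_nonneg V
    nlinarith [norm_nonneg (w h z)]
  have hwL : ∀ h, MemLp (w h) 2 lam := fun h =>
    MemLp.of_bound (hwm h) (V ^ 2) (Eventually.of_forall fun z => hwn h z)
  refine ⟨⟨Lp (EuclideanSpace ℂ (Bool × (Fin d × Fin d))) 2 lam, inferInstance, inferInstance,
    inferInstance, fun h => (hwL h).toLp (w h), fun k k' => ?_⟩, fun k k' => ?_⟩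
  · rw [L2.inner_def]
    have h1 : ∀ᵐ z ∂lam, inner ℂ ((hwL k).toLp (w k) z) ((hwL k').toLp (w k') z) =
        ((pk S φ c p q k k' z).re : ℂ) := by
      filter_upwards [(hwL k).coeFn_toLp, (hwL k').coeFn_toLp] with z e1 e2
      rw [e1, e2]
      exact hwi k k' z
    have h2 := Complex.reCLM.integral_comp_comm (pk_int hS hm hφ hc hl k k')
    have h3 : ∫ z, (((pk S φ c p q k k' z).re : ℝ) : ℂ) ∂lam =
        ((∫ z, (pk S φ c p q k k' z).re ∂lam : ℝ) : ℂ) := integral_ofReal
    rw [integral_congr_ae h1]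
    refine h3.trans ?_
    exact congrArg (fun t : ℝ => (t : ℂ)) h2
  · rw [Nk, Nk]
    congr 1
    simp only [pk_shift hφ]
    rw [← integral_map (μ := lam) hl.inv.measurable.aemeasurable (f := pk S φ c p q k k'),
      hl.inv.map_eq]
    rw [hl.inv.map_eq]
    exact pk_aesm hS hm hφ hc hl.fst hl.snd k k'

end kernel

end Pool.Agent.Helper47.TW
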