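import Mathlib

/-!
Weak limits of empirical measures and ergodic measures (MP_7a8f48_an, towers, end block).
-/

open MeasureTheory Filter Topology Set TopologicalSpace
open scoped ComplexConjugate BoundedContinuousFunction ENNReal

namespace Pool.Agent.Helper47.TW

section

variable {Z : Type*} [TopologicalSpace Z] [CompactSpace Z] [MetrizableSpace Z]
  [MeasurableSpace Z] [BorelSpace Z]

/-- the integrals of the continuous functions -/
noncomputable def ig (lam : ProbabilityMeasure Z) : (Z →ᵇ ℝ) → ℝ :=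
  fun f => ∫ z, f z ∂(lam : Measure Z)

omit [CompactSpace Z] [MetrizableSpace Z] in
theorem ig_cont : Continuous (ig (Z := Z)) := by
  refine continuous_pi fun f => ?_
  rw [continuous_iff_continuousAt]
  intro lam
  exact (ProbabilityMeasure.tendsto_iff_forall_integral_tendsto.1 tendsto_id) f

omit [CompactSpace Z] in
theorem ig_inj : Function.Injective (ig (Z := Z)) := by
  intro a b h
  have h1 : (a : Measure Z) = (b : Measure Z) :=
    ext_of_forall_integral_eq_of_IsFiniteMeasure fun f => congrFun h f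
  exact Subtype.ext h1

omit [CompactSpace Z] [MetrizableSpace Z] in
theorem ig_comb {lam lam1 lam2 : Measure Z} [IsProbabilityMeasure lam1] [IsProbabilityMeasure lam2]
    {a b : ℝ≥0∞} (ha : a ≠ ∞) (hb : b ≠ ∞) (h : a • lam1 + b • lam2 = lam) (f : Z →ᵇ ℝ) :
    ∫ z, f z ∂lam = a.toReal * (∫ z, f z ∂lam1) + b.toReal * (∫ z, f z ∂lam2) := by
  rw [← h, integral_add_measure ((f.integrable _).smul_measure ha)
    ((f.integrable _).smul_measure hb), integral_smul_measure, integral_smul_measure, smul_eq_mul,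
    smul_eq_mul]

/-- the maximum of the integrals of a continuous function over the invariant measures is attained
at an ergodic measure -/
theorem exists_ergodic {τ : Z → Z} (hτ : Continuous τ) (lam0 : Measure Z)
    [IsProbabilityMeasure lam0] (h0 : MeasurePreserving τ lam0 lam0) (φ : Z →ᵇ ℝ) :
    ∃ lam : Measure Z, IsProbabilityMeasure lam ∧ Ergodic τ lam ∧
      ∫ z, φ z ∂lam0 ≤ ∫ z, φ z ∂lam := by
  have hφ : Continuous fun lam : ProbabilityMeasure Z => ∫ z, φ z ∂(lam : Measure Z) :=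
    (continuous_apply φ).comp ig_cont
  let JJ : Set (ProbabilityMeasure Z) := {lam | lam.map hτ.measurable.aemeasurable = lam}
  have hJcl : IsClosed JJ := isClosed_eq (ProbabilityMeasure.continuous_map hτ) continuous_id
  have hmem : ∀ lam : ProbabilityMeasure Z, lam ∈ JJ ↔
      MeasurePreserving τ (lam : Measure Z) (lam : Measure Z) := by
    intro lam
    constructor
    · intro h
      exact ⟨hτ.measurable, congrArg (fun x : ProbabilityMeasure Z => (x : Measure Z)) h⟩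
    · intro h
      exact Subtype.ext h.map_eq
  have hJ0 : (⟨lam0, inferInstance⟩ : ProbabilityMeasure Z) ∈ JJ := (hmem _).2 h0
  obtain ⟨m, hmJ, hm⟩ := hJcl.isCompact.exists_isMaxOn ⟨_, hJ0⟩ hφ.continuousOn
  let KK : Set (ProbabilityMeasure Z) := JJ ∩ {lam | ∫ z, φ z ∂(lam : Measure Z) =
    ∫ z, φ z ∂(m : Measure Z)}
  have hKcl : IsClosed KK := hJcl.inter (isClosed_eq hφ continuous_const)
  have hKne : KK.Nonempty := ⟨m, hmJ, rfl⟩
  obtain ⟨x, hx⟩ := (hKcl.isCompact.image ig_cont).extremePoints_nonempty (hKne.image ig)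
  obtain ⟨lam, hlam, rfl⟩ := hx.1
  refine ⟨lam, inferInstance, Ergodic.of_mem_extremePoints ?_, ?_⟩
  · rw [mem_extremePoints_iff_left]
    refine ⟨⟨(hmem lam).1 hlam.1, inferInstance⟩, ?_⟩
    rintro lam1 ⟨h1, h1p⟩ lam2 ⟨h2, h2p⟩ ⟨a, b, ha, hb, hab, hc⟩
    have ha1 : a ≠ ∞ := by
      rintro rfl
      simp at hab
    have hb1 : b ≠ ∞ := by
      rintro rfl
      simp at hab
    have hab' : a.toReal + b.toReal = 1 := by
      rw [← ENNReal.toReal_add ha1 hb1, hab, ENNReal.toReal_one]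
    have ha' : 0 < a.toReal := ENNReal.toReal_pos ha.ne' ha1
    have hb' : 0 < b.toReal := ENNReal.toReal_pos hb.ne' hb1
    let l1 : ProbabilityMeasure Z := ⟨lam1, h1p⟩
    let l2 : ProbabilityMeasure Z := ⟨lam2, h2p⟩
    have hl1 : l1 ∈ JJ := (hmem l1).2 h1
    have hl2 : l2 ∈ JJ := (hmem l2).2 h2
    have e1 := ig_comb ha1 hb1 hc φ
    have e2 : ∫ z, φ z ∂(lam : Measure Z) = ∫ z, φ z ∂(m : Measure Z) := hlam.2
    have m1 : ∫ z, φ z ∂lam1 ≤ ∫ z, φ z ∂(m : Measure Z) := hm hl1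
    have m2 : ∫ z, φ z ∂lam2 ≤ ∫ z, φ z ∂(m : Measure Z) := hm hl2
    rw [e2] at e1
    have e3 : a.toReal * (∫ z, φ z ∂(m : Measure Z)) + b.toReal * (∫ z, φ z ∂(m : Measure Z)) =
        ∫ z, φ z ∂(m : Measure Z) := by rw [← add_mul, hab', one_mul]
    have m1' : ∫ z, φ z ∂lam1 = ∫ z, φ z ∂(m : Measure Z) := by
      refine le_antisymm m1 ?_
      by_contra hlt
      push Not at hlt
      have n1 := mul_lt_mul_of_pos_left hlt ha'
      have n2 := mul_le_mul_of_nonneg_left m2 hb'.le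
      linarith
    have m2' : ∫ z, φ z ∂lam2 = ∫ z, φ z ∂(m : Measure Z) := by
      refine le_antisymm m2 ?_
      by_contra hlt
      push Not at hlt
      have n1 := mul_lt_mul_of_pos_left hlt hb'
      have n2 := mul_le_mul_of_nonneg_left m1 ha'.le
      linarith
    have k1 : ig l1 ∈ ig '' KK := ⟨l1, ⟨hl1, m1'⟩, rfl⟩
    have k2 : ig l2 ∈ ig '' KK := ⟨l2, ⟨hl2, m2'⟩, rfl⟩
    have k3 : ig lam ∈ openSegment ℝ (ig l1) (ig l2) := by
      refine ⟨a.toReal, b.toReal, ha', hb', hab', ?_⟩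
      ext f
      rw [Pi.add_apply, Pi.smul_apply, Pi.smul_apply, smul_eq_mul, smul_eq_mul]
      exact (ig_comb ha1 hb1 hc f).symm
    have k4 := (mem_extremePoints_iff_left.1 hx).2 _ k1 _ k2 k3
    exact congrArg (fun x : ProbabilityMeasure Z => (x : Measure Z)) (ig_inj k4)
  · have e2 : ∫ z, φ z ∂(lam : Measure Z) = ∫ z, φ z ∂(m : Measure Z) := hlam.2
    rw [e2]
    exact hm hJ0

/-- the empirical measures of an orbit -/
noncomputable def emp (τ : Z → Z) (z₀ : Z) (N : ℕ) : ProbabilityMeasure Z :=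
  ⟨((N + 1 : ℕ) : ℝ≥0∞)⁻¹ • ∑ n ∈ Finset.Icc 1 (N + 1), Measure.dirac (τ^[n] z₀), ⟨by
    rw [Measure.smul_apply, Measure.finsetSum_apply, smul_eq_mul]
    simp only [measure_univ, Finset.sum_const, Nat.card_Icc, nsmul_eq_mul, mul_one]
    rw [show N + 1 + 1 - 1 = N + 1 from rfl]
    exact ENNReal.inv_mul_cancel (by simp) (ENNReal.natCast_ne_top _)⟩⟩

theorem emp_integral (τ : Z → Z) (z₀ : Z) (N : ℕ) (f : Z → ℂ) :
    ∫ z, f z ∂(emp τ z₀ N : Measure Z) =
      (∑ n ∈ Finset.Icc 1 (N + 1), f (τ^[n] z₀)) / ((N + 1 : ℕ) : ℂ) := by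
  show ∫ z, f z ∂(((N + 1 : ℕ) : ℝ≥0∞)⁻¹ •
    ∑ n ∈ Finset.Icc 1 (N + 1), Measure.dirac (τ^[n] z₀)) = _
  rw [integral_smul_measure, integral_finsetSum_measure fun n _ => ?_]
  · simp only [integral_dirac]
    rw [ENNReal.toReal_inv, ENNReal.toReal_natCast, Complex.real_smul, Complex.ofReal_inv,
      Complex.ofReal_natCast, div_eq_inv_mul]
  · exact integrable_dirac (by simp)

theorem emp_integral_real (τ : Z → Z) (z₀ : Z) (N : ℕ) (f : Z → ℝ) :
    ∫ z, f z ∂(emp τ z₀ N : Measure Z) =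
      (∑ n ∈ Finset.Icc 1 (N + 1), f (τ^[n] z₀)) / ((N + 1 : ℕ) : ℝ) := by
  show ∫ z, f z ∂(((N + 1 : ℕ) : ℝ≥0∞)⁻¹ •
    ∑ n ∈ Finset.Icc 1 (N + 1), Measure.dirac (τ^[n] z₀)) = _
  rw [integral_smul_measure, integral_finsetSum_measure fun n _ => ?_]
  · simp only [integral_dirac]
    rw [ENNReal.toReal_inv, ENNReal.toReal_natCast, smul_eq_mul, div_eq_inv_mul]
  · exact integrable_dirac (by simp)

theorem tele (a : ℕ → ℝ) (N : ℕ) : ∑ n ∈ Finset.Icc 1 (N + 1), (a (n + 1) - a n) =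
    a (N + 2) - a 1 := by
  induction N with
  | zero => simp
  | succ N ih =>
    rw [Finset.sum_Icc_succ_top (by omega), ih]
    ring

/-- **Averages along an orbit and ergodic measures.** -/
theorem wlim_gen {τ : Z → Z} (hτ : Continuous τ) (z₀ : Z) (Ψ : Z → ℂ) (hΨ : Continuous Ψ) (c : ℝ)
    (hc : ∀ lam : Measure Z, IsProbabilityMeasure lam → Ergodic τ lam →
      ‖∫ z, Ψ z ∂lam‖ ≤ c) (ε : ℝ) (hε : 0 < ε) :
    ∀ᶠ N : ℕ in atTop, ‖∑ n ∈ Finset.Icc 1 N, Ψ (τ^[n] z₀)‖ ≤ (c + ε) * N := by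
  by_contra hcon
  have hfr : ∃ᶠ N : ℕ in atTop, (c + ε) * ((N + 1 : ℕ) : ℝ) <
      ‖∑ n ∈ Finset.Icc 1 (N + 1), Ψ (τ^[n] z₀)‖ := by
    rw [Filter.not_eventually] at hcon
    rw [Filter.frequently_atTop] at hcon ⊢
    intro a
    obtain ⟨b, hb, hb2⟩ := hcon (a + 1)
    obtain ⟨b', rfl⟩ : ∃ b', b = b' + 1 := ⟨b - 1, by omega⟩
    exact ⟨b', by omega, not_le.1 hb2⟩
  have hne : (atTop ⊓ 𝓟 {N : ℕ | (c + ε) * ((N + 1 : ℕ) : ℝ) <
      ‖∑ n ∈ Finset.Icc 1 (N + 1), Ψ (τ^[n] z₀)‖}).NeBot := Filter.frequently_mem_iff_neBot.1 hfr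
  let V : Ultrafilter ℕ := Ultrafilter.of (atTop ⊓ 𝓟 {N : ℕ | (c + ε) * ((N + 1 : ℕ) : ℝ) <
      ‖∑ n ∈ Finset.Icc 1 (N + 1), Ψ (τ^[n] z₀)‖})
  have hV := Ultrafilter.of_le (atTop ⊓ 𝓟 {N : ℕ | (c + ε) * ((N + 1 : ℕ) : ℝ) <
      ‖∑ n ∈ Finset.Icc 1 (N + 1), Ψ (τ^[n] z₀)‖})
  have hV1 : (V : Filter ℕ) ≤ atTop := hV.trans inf_le_left
  have hV2 : ∀ᶠ N : ℕ in (V : Filter ℕ), (c + ε) * ((N + 1 : ℕ) : ℝ) <
      ‖∑ n ∈ Finset.Icc 1 (N + 1), Ψ (τ^[n] z₀)‖ := hV.trans inf_le_right (mem_principal_self _)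
  obtain ⟨lam, -, hlam⟩ := (isCompact_univ (X := ProbabilityMeasure Z)).ultrafilter_le_nhds
    (V.map (emp τ z₀)) (by simp)
  have hlim : Tendsto (emp τ z₀) V (𝓝 lam) := hlam
  have hint : ∀ f : Z →ᵇ ℝ, Tendsto (fun N => ∫ z, f z ∂(emp τ z₀ N : Measure Z)) V
      (𝓝 (∫ z, f z ∂(lam : Measure Z))) :=
    ProbabilityMeasure.tendsto_iff_forall_integral_tendsto.1 hlim
  -- the limit is invariant
  have hinv : MeasurePreserving τ (lam : Measure Z) (lam : Measure Z) := by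
    refine ⟨hτ.measurable, ?_⟩
    refine ext_of_forall_integral_eq_of_IsFiniteMeasure fun f => ?_
    rw [integral_map hτ.measurable.aemeasurable f.continuous.aestronglyMeasurable]
    let g : Z →ᵇ ℝ := f.compContinuous ⟨τ, hτ⟩
    have h1 := (hint g).sub (hint f)
    have h2 : Tendsto (fun N => (∫ z, g z ∂(emp τ z₀ N : Measure Z)) -
        ∫ z, f z ∂(emp τ z₀ N : Measure Z)) V (𝓝 0) := by
      refine (squeeze_zero_norm (a := fun N : ℕ => (2 * ‖f‖) / ((N + 1 : ℕ) : ℝ)) ?_ ?_).mono_left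
        hV1
      · intro N
        rw [emp_integral_real, emp_integral_real, ← sub_div, ← Finset.sum_sub_distrib]
        have h3 : ∑ n ∈ Finset.Icc 1 (N + 1), (g (τ^[n] z₀) - f (τ^[n] z₀)) =
            f (τ^[N + 2] z₀) - f (τ^[1] z₀) := by
          have h4 : ∀ n, g (τ^[n] z₀) = f (τ^[n + 1] z₀) := fun n => by
            rw [Function.iterate_succ_apply']
            rfl
          simp only [h4]
          exact tele (fun n => f (τ^[n] z₀)) N
        rw [h3, norm_div, Real.norm_natCast]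
        gcongr
        calc ‖f (τ^[N + 2] z₀) - f (τ^[1] z₀)‖ ≤ ‖f (τ^[N + 2] z₀)‖ + ‖f (τ^[1] z₀)‖ :=
            norm_sub_le _ _
          _ ≤ ‖f‖ + ‖f‖ := add_le_add (f.norm_coe_le_norm _) (f.norm_coe_le_norm _)
          _ = 2 * ‖f‖ := by ring
      · refine Tendsto.div_atTop tendsto_const_nhds ?_
        exact tendsto_natCast_atTop_atTop.comp (tendsto_add_atTop_nat 1)
    have h5 := tendsto_nhds_unique h1 h2
    exact sub_eq_zero.1 h5
  -- the integral of `Ψ`
  have hΨi : ∀ μ : Measure Z, IsProbabilityMeasure μ → Integrable Ψ μ := fun μ _ =>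
    (BoundedContinuousFunction.mkOfCompact ⟨Ψ, hΨ⟩).integrable μ
  have hre : ∀ (u : ℂ) (μ : Measure Z), IsProbabilityMeasure μ →
      ∫ z, (u * Ψ z).re ∂μ = (u * ∫ z, Ψ z ∂μ).re := by
    intro u μ hμ
    have h1 := Complex.reCLM.integral_comp_comm ((hΨi μ hμ).const_mul u)
    rw [integral_const_mul] at h1
    exact h1
  let fu : ℂ → (Z →ᵇ ℝ) := fun u => BoundedContinuousFunction.mkOfCompact
    ⟨fun z => (u * Ψ z).re, Complex.continuous_re.comp (continuous_const.mul hΨ)⟩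
  have hw : ∀ u : ℂ, ‖u‖ = 1 → Tendsto (fun N => (u * ∫ z, Ψ z ∂(emp τ z₀ N : Measure Z)).re) V
      (𝓝 (u * ∫ z, Ψ z ∂(lam : Measure Z)).re) := by
    intro u _
    have h1 := hint (fu u)
    have h2 : ∀ μ : Measure Z, IsProbabilityMeasure μ →
        ∫ z, fu u z ∂μ = (u * ∫ z, Ψ z ∂μ).re := fun μ hμ => hre u μ hμ
    rw [h2 _ inferInstance] at h1
    refine h1.congr fun N => h2 _ inferInstance
  have hwt : Tendsto (fun N => ∫ z, Ψ z ∂(emp τ z₀ N : Measure Z)) V
      (𝓝 (∫ z, Ψ z ∂(lam : Measure Z))) := by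
    have h1 := hw 1 (by simp)
    have h2 := hw (-Complex.I) (by simp)
    simp only [one_mul] at h1
    have h3 : ∀ w : ℂ, (-Complex.I * w).re = w.im := fun w => by simp
    simp only [h3] at h2
    have h4 := (Complex.continuous_ofReal.tendsto _).comp h1
    have h5 := ((Complex.continuous_ofReal.tendsto _).comp h2).mul_const Complex.I
    have h6 := h4.add h5
    rw [Complex.re_add_im] at h6
    refine h6.congr fun N => ?_
    simp only [Function.comp_apply]
    exact Complex.re_add_im _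
  have hge : c + ε ≤ ‖∫ z, Ψ z ∂(lam : Measure Z)‖ := by
    refine ge_of_tendsto hwt.norm ?_
    filter_upwards [hV2] with N hN
    rw [emp_integral, norm_div, Complex.norm_natCast, le_div_iff₀ (by positivity)]
    exact hN.le
  obtain ⟨u, hu1, hu2⟩ : ∃ u : ℂ, ‖u‖ = 1 ∧ u * ∫ z, Ψ z ∂(lam : Measure Z) =
      (‖∫ z, Ψ z ∂(lam : Measure Z)‖ : ℝ) := by
    by_cases h0 : ∫ z, Ψ z ∂(lam : Measure Z) = 0
    · exact ⟨1, by simp, by rw [h0]; simp⟩
    · refine ⟨conj (∫ z, Ψ z ∂(lam : Measure Z)) / (‖∫ z, Ψ z ∂(lam : Measure Z)‖ : ℝ), ?_, ?_⟩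
      · rw [norm_div, RCLike.norm_conj, Complex.norm_real, norm_norm,
          div_self (norm_ne_zero_iff.2 h0)]
      · rw [div_mul_eq_mul_div, mul_comm (conj _), Complex.mul_conj, Complex.normSq_eq_norm_sq,
          pow_two, Complex.ofReal_mul, mul_div_assoc, div_self, mul_one]
        exact Complex.ofReal_ne_zero.2 (norm_ne_zero_iff.2 h0)
  obtain ⟨lam', hp, he, hle⟩ := exists_ergodic hτ (lam : Measure Z) hinv (fu u)
  have h1 : ∫ z, fu u z ∂(lam : Measure Z) = ‖∫ z, Ψ z ∂(lam : Measure Z)‖ := by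
    have h2 : ∫ z, fu u z ∂(lam : Measure Z) = (u * ∫ z, Ψ z ∂(lam : Measure Z)).re :=
      hre u _ inferInstance
    rw [h2, hu2, Complex.ofReal_re]
  have h2 : ∫ z, fu u z ∂lam' ≤ c := by
    have h3 : ∫ z, fu u z ∂lam' = (u * ∫ z, Ψ z ∂lam').re := hre u _ hp
    rw [h3]
    refine (Complex.re_le_norm _).trans ?_
    rw [norm_mul, hu1, one_mul]
    exact hc lam' hp he
  linarith

end

/-- **Correlations of two powers of a transformation and ergodic joinings.** -/
theorem wlim {Y : Type*} [TopologicalSpace Y] [CompactSpace Y] [MetrizableSpace Y]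
    [MeasurableSpace Y] [BorelSpace Y] {R : Y → Y} (hR : Continuous R) (ν : Measure Y)
    (p q : ℕ)
    (hp : ∀ ν' : Measure Y, IsProbabilityMeasure ν' → MeasurePreserving R^[p] ν' ν' → ν' = ν)
    (hq : ∀ ν' : Measure Y, IsProbabilityMeasure ν' → MeasurePreserving R^[q] ν' ν' → ν' = ν)
    (y : Y) (G G' : Y → ℂ) (hG : Continuous G) (hG' : Continuous G') (c : ℝ)
    (hc : ∀ lam : Measure (Y × Y), IsProbabilityMeasure lam → lam.map Prod.fst = ν →
      lam.map Prod.snd = ν → Ergodic (Prod.map R^[p] R^[q]) lam →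
      ‖∫ z, G z.1 * conj (G' z.2) ∂lam‖ ≤ c) (ε : ℝ) (hε : 0 < ε) :
    ∀ᶠ N : ℕ in atTop,
      ‖∑ n ∈ Finset.Icc 1 N, G (R^[p * n] y) * conj (G' (R^[q * n] y))‖ ≤ (c + ε) * N := by
  let _ := metrizableSpaceMetric Y
  have hc2 : ∀ lam : Measure (Y × Y), IsProbabilityMeasure lam →
      Ergodic (Prod.map R^[p] R^[q]) lam → ‖∫ z, G z.1 * conj (G' z.2) ∂lam‖ ≤ c := by
    intro lam hl he
    refine hc lam hl ?_ ?_ he
    · refine hp _ (Measure.isProbabilityMeasure_map measurable_fst.aemeasurable) ?_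
      refine ⟨(hR.iterate p).measurable, ?_⟩
      rw [Measure.map_map (hR.iterate p).measurable measurable_fst]
      conv_rhs => rw [← he.toMeasurePreserving.map_eq, Measure.map_map measurable_fst
        he.toMeasurePreserving.measurable]
      rfl
    · refine hq _ (Measure.isProbabilityMeasure_map measurable_snd.aemeasurable) ?_
      refine ⟨(hR.iterate q).measurable, ?_⟩
      rw [Measure.map_map (hR.iterate q).measurable measurable_snd]
      conv_rhs => rw [← he.toMeasurePreserving.map_eq, Measure.map_map measurable_snd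
        he.toMeasurePreserving.measurable]
      rfl
  have h1 := wlim_gen (τ := Prod.map R^[p] R^[q]) ((hR.iterate p).prodMap (hR.iterate q)) (y, y)
    (fun z => G z.1 * conj (G' z.2)) (by fun_prop) c hc2 ε hε
  filter_upwards [h1] with N hN
  have h2 : ∀ n, (Prod.map R^[p] R^[q])^[n] (y, y) = (R^[p * n] y, R^[q * n] y) := by
    intro n
    rw [Prod.map_iterate, Prod.map_apply, Function.iterate_mul, Function.iterate_mul]
  simp only [h2] at hN
  exact hN

end Pool.Agent.Helper47.TW
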