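import Pool.Agent.Helper47.TW.M67a

/-!
Real functions of pairs of points which are near continuous functions, and their averages along
the orbits of pairs (MP_7a8f48_an, towers).
-/

open Finset Filter MeasureTheory Topology
open scoped ComplexConjugate InnerProductSpace BoundedContinuousFunction

namespace Pool.Agent.Helper47.TW

open Pool.Agent.Helper16.AZ (T E Op mm)
open Pool.Agent.Helper16.BZ (co Wk EE EQ EE_shift EE_norm Wk_norm)
open Pool.Agent.Helper16.MD (PB Rich)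
open Pool.Agent.Helper40.DZ (RI UR SK EE_RI Wk_RI)

variable {R d : ℕ}

/-- real functions on pairs which are near continuous functions -/
def Nice (Ψ : T R × T R → ℝ) : Prop := ∀ δ : ℝ, 0 < δ →
  ∃ (φ : (T R × T R) →ᵇ ℝ) (R₁ R₂ : T R → ℝ), Continuous R₁ ∧ Continuous R₂ ∧
    (∀ z, |Ψ z - φ z| ≤ R₁ z.1 + R₂ z.2) ∧ ∫ x, R₁ x ∂(mm R) ≤ δ ∧ ∫ x, R₂ x ∂(mm R) ≤ δ

theorem Nice.zero : Nice (fun _ : T R × T R => 0) := fun δ hδ =>
  ⟨0, fun _ => 0, fun _ => 0, continuous_const, continuous_const, fun z => by simp, by simpa using hδ.le,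
    by simpa using hδ.le⟩

theorem int_cont_mm {f : T R → ℝ} (hf : Continuous f) : Integrable f (mm R) :=
  hf.integrable_of_hasCompactSupport (HasCompactSupport.of_compactSpace f)

theorem Nice.add {Ψ Ψ' : T R × T R → ℝ} (h : Nice Ψ) (h' : Nice Ψ') :
    Nice (fun z => Ψ z + Ψ' z) := by
  intro δ hδ
  obtain ⟨φ, R₁, R₂, a1, a2, a3, a4, a5⟩ := h (δ / 2) (by positivity)
  obtain ⟨φ', R₁', R₂', b1, b2, b3, b4, b5⟩ := h' (δ / 2) (by positivity)
  refine ⟨φ + φ', fun x => R₁ x + R₁' x, fun x => R₂ x + R₂' x, a1.add b1, a2.add b2,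
    fun z => ?_, ?_, ?_⟩
  · have h1 : Ψ z + Ψ' z - (φ + φ') z = (Ψ z - φ z) + (Ψ' z - φ' z) := by
      rw [BoundedContinuousFunction.add_apply]
      ring
    rw [h1]
    refine (abs_add_le _ _).trans ?_
    have := a3 z
    have := b3 z
    linarith
  · rw [integral_add (int_cont_mm a1) (int_cont_mm b1)]
    linarith
  · rw [integral_add (int_cont_mm a2) (int_cont_mm b2)]
    linarith

theorem Nice.sum {ι : Type*} (s : Finset ι) {Ψ : ι → T R × T R → ℝ} (h : ∀ i ∈ s, Nice (Ψ i)) :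
    Nice (fun z => ∑ i ∈ s, Ψ i z) := by
  classical
  induction s using Finset.induction_on with
  | empty => simpa using Nice.zero
  | insert a s ha ih =>
    have := (h a (Finset.mem_insert_self a s)).add
      (ih fun i hi => h i (Finset.mem_insert_of_mem hi))
    simpa only [Finset.sum_insert ha] using this

theorem nice_pk (hRIS : Pool.Agent.Helper40.DZ.ST_RIS) {S : T R → T R} (hS : Continuous S)
    (hm : MeasurePreserving S (mm R) (mm R)) {φ : T R → Op d} (hφ : UR φ) {c : T R → E d}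
    (hc : Continuous c) (p q h h' : ℕ) : Nice (fun z => (pk S φ c p q h h' z).re) := by
  intro δ hδ
  obtain ⟨V, hV⟩ := (RI.of_continuous hc).2
  obtain ⟨C, hC⟩ : ∃ C : ℝ, C = V ^ 2 + 1 := ⟨_, rfl⟩
  have hC0 : 0 < C := by rw [hC]; positivity
  have hA : ∀ k k' x, ‖EE S φ c k k' x‖ ≤ C := fun k k' x =>
    (EE_norm S φ c hφ.2 V hV _ _ _).trans (by rw [hC]; linarith)
  obtain ⟨G, R₁, g1, r1, e1, e2, e3, e4⟩ := hRIS R ℂ (EE S φ c (p * h) (p * h')) C
    (EE_RI hS hm hφ (RI.of_continuous hc) _ _).1 (hA _ _) (δ / C) (by positivity)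
  obtain ⟨G', R₂, g1', r1', e1', e2', e3', e4'⟩ := hRIS R ℂ (EE S φ c (q * h) (q * h')) C
    (EE_RI hS hm hφ (RI.of_continuous hc) _ _).1 (hA _ _) (δ / C) (by positivity)
  have hgc : Continuous fun z : T R × T R => (G z.1 * conj (G' z.2)).re :=
    Complex.continuous_re.comp ((g1.comp continuous_fst).mul
      (Complex.continuous_conj.comp (g1'.comp continuous_snd)))
  refine ⟨BoundedContinuousFunction.mkOfCompact ⟨_, hgc⟩, fun x => C * R₁ x, fun x => C * R₂ x,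
    continuous_const.mul r1, continuous_const.mul r1', fun z => ?_, ?_, ?_⟩
  · have h1 : (pk S φ c p q h h' z).re - (G z.1 * conj (G' z.2)).re =
        ((EE S φ c (p * h) (p * h') z.1 - G z.1) * conj (EE S φ c (q * h) (q * h') z.2) +
          G z.1 * conj (EE S φ c (q * h) (q * h') z.2 - G' z.2)).re := by
      rw [← Complex.sub_re, pk, map_sub]
      congr 1
      ring
    change |(pk S φ c p q h h' z).re - (G z.1 * conj (G' z.2)).re| ≤ _
    rw [h1]
    refine (Complex.abs_re_le_norm _).trans ((norm_add_le _ _).trans ?_)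
    rw [norm_mul, norm_mul, RCLike.norm_conj, RCLike.norm_conj]
    have h2 : ‖EE S φ c (p * h) (p * h') z.1 - G z.1‖ * ‖EE S φ c (q * h) (q * h') z.2‖ ≤
        C * R₁ z.1 := by
      rw [mul_comm]
      exact mul_le_mul (hA _ _ _) (e1 _) (norm_nonneg _) hC0.le
    have h3 : ‖G z.1‖ * ‖EE S φ c (q * h) (q * h') z.2 - G' z.2‖ ≤ C * R₂ z.2 :=
      mul_le_mul (e3 _) (e1' _) (norm_nonneg _) hC0.le
    exact add_le_add h2 h3
  · rw [integral_const_mul]
    calc C * ∫ x, R₁ x ∂(mm R) ≤ C * (δ / C) := mul_le_mul_of_nonneg_left e4 hC0.le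
      _ = δ := by field_simp
  · rw [integral_const_mul]
    calc C * ∫ x, R₂ x ∂(mm R) ≤ C * (δ / C) := mul_le_mul_of_nonneg_left e4' hC0.le
      _ = δ := by field_simp

section

variable {S : T R → T R} {p q : ℕ}

theorem Jn.int_fst {lam : Measure (T R × T R)} (hl : Jn S p q lam) {f : T R → ℝ}
    (hf : Continuous f) : ∫ z, f z.1 ∂lam = ∫ x, f x ∂(mm R) := by
  rw [← hl.fst, integral_map measurable_fst.aemeasurable]
  rw [hl.fst]
  exact hf.aestronglyMeasurable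

theorem Jn.int_snd {lam : Measure (T R × T R)} (hl : Jn S p q lam) {f : T R → ℝ}
    (hf : Continuous f) : ∫ z, f z.2 ∂lam = ∫ x, f x ∂(mm R) := by
  rw [← hl.snd, integral_map measurable_snd.aemeasurable]
  rw [hl.snd]
  exact hf.aestronglyMeasurable

theorem Jn.near {lam : Measure (T R × T R)} (hl : Jn S p q lam) {Ψ : T R × T R → ℝ}
    (hΨ : Integrable Ψ lam) {δ : ℝ} {φ : (T R × T R) →ᵇ ℝ} {R₁ R₂ : T R → ℝ}
    (h1 : Continuous R₁) (h2 : Continuous R₂) (h3 : ∀ z, |Ψ z - φ z| ≤ R₁ z.1 + R₂ z.2)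
    (h4 : ∫ x, R₁ x ∂(mm R) ≤ δ) (h5 : ∫ x, R₂ x ∂(mm R) ≤ δ) :
    |∫ z, Ψ z ∂lam - ∫ z, φ z ∂lam| ≤ 2 * δ := by
  have := hl.prob
  have i0 : Integrable (fun z => φ z) lam := φ.integrable lam
  have i1 : Integrable (fun z : T R × T R => R₁ z.1) lam :=
    (h1.comp continuous_fst).integrable_of_hasCompactSupport
      (HasCompactSupport.of_compactSpace _)
  have i2 : Integrable (fun z : T R × T R => R₂ z.2) lam :=
    (h2.comp continuous_snd).integrable_of_hasCompactSupport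
      (HasCompactSupport.of_compactSpace _)
  rw [← integral_sub hΨ i0]
  calc |∫ z, (Ψ z - φ z) ∂lam| ≤ ∫ z, |Ψ z - φ z| ∂lam := abs_integral_le_integral_abs
    _ ≤ ∫ z, (R₁ z.1 + R₂ z.2) ∂lam :=
      integral_mono (hΨ.sub i0).abs (i1.add i2) h3
    _ = ∫ x, R₁ x ∂(mm R) + ∫ x, R₂ x ∂(mm R) := by
      rw [integral_add i1 i2, hl.int_fst h1, hl.int_snd h2]
    _ ≤ 2 * δ := by linarith

theorem Nice.app (hS : Continuous S) (hE : EQ S (mm R)) (hp : 1 ≤ p) (hq : 1 ≤ q)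
    {Ψ : T R × T R → ℝ} (hΨ : Nice Ψ) (hi : ∀ lam, Jn S p q lam → Integrable Ψ lam) :
    App (Prod.map S^[p] S^[q]) (fun lam => ∫ z, Ψ z ∂lam) := by
  intro δ hδ
  obtain ⟨φ, R₁, R₂, a1, a2, a3, a4, a5⟩ := hΨ (δ / 2) (by positivity)
  refine ⟨φ, fun lam hl hinv => ?_⟩
  have hJ := Jn.of_inv hS hE hp hq lam hl hinv
  have := hJ.near (hi lam hJ) a1 a2 a3 a4 a5
  linarith

theorem Nice.orbit (hEQR : Pool.Agent.Helper40.DZ.ST_EQR) (hS : Continuous S)
    (hE : EQ S (mm R)) (hp : 1 ≤ p) (hq : 1 ≤ q)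
    {Ψ : T R × T R → ℝ} (hΨ : Nice Ψ) (hi : ∀ lam, Jn S p q lam → Integrable Ψ lam) (C : ℝ)
    (hC : ∀ lam, Jn S p q lam → ∫ z, Ψ z ∂lam < C) (x : T R) (ε : ℝ) (hε : 0 < ε) :
    ∀ᶠ M : ℕ in atTop, ∑ y ∈ Icc 1 M, Ψ (S^[p * y] x, S^[q * y] x) ≤ (C + ε) * M := by
  obtain ⟨φ, R₁, R₂, a1, a2, a3, a4, a5⟩ := hΨ (ε / 6) (by positivity)
  have hτ : Continuous (Prod.map S^[p] S^[q]) := (hS.iterate p).prodMap (hS.iterate q)
  have b1 := wlim_real hτ φ (C + ε / 3) (fun lam hl hinv => by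
    have hJ := Jn.of_inv hS hE hp hq lam hl hinv
    have h1 := (abs_le.1 (hJ.near (hi lam hJ) a1 a2 a3 a4 a5)).1
    have h2 := hC lam hJ
    linarith) (x, x)
  have b2 : ∀ (f : T R → ℝ), Continuous f → ∫ y, f y ∂(mm R) ≤ ε / 6 → ∀ m : ℕ, 1 ≤ m →
      ∀ᶠ M : ℕ in atTop, ∑ y ∈ Icc 1 M, f (S^[m * y] x) ≤ ε / 3 * M := by
    intro f hf hfi m hm
    have hRI : RI (fun y => ((f y : ℝ) : ℂ)) :=
      RI.of_continuous (Complex.continuous_ofReal.comp hf)
    have g1 := (hEQR R S hE _ hRI m x hm).2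
    have g2 : ∫ y, ((f y : ℝ) : ℂ) ∂(mm R) = ((∫ y, f y ∂(mm R) : ℝ) : ℂ) := integral_ofReal
    rw [g2] at g1
    have g3 := (Complex.continuous_re.tendsto _).comp g1
    rw [Complex.ofReal_re] at g3
    have g5 : Tendsto (fun M : ℕ => (∑ y ∈ Icc 1 M, f (S^[m * y] x)) / (M : ℝ))
        atTop (𝓝 (∫ y, f y ∂(mm R))) := by
      refine g3.congr fun M => ?_
      simp only [Function.comp_apply]
      rw [← Complex.ofReal_sum, ← Complex.ofReal_natCast, ← Complex.ofReal_div, Complex.ofReal_re]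
    filter_upwards [g5.eventually (gt_mem_nhds (show ∫ y, f y ∂(mm R) < ε / 3 by linarith)),
      eventually_gt_atTop 0] with M hM hM0
    have hM0' : (0 : ℝ) < M := by exact_mod_cast hM0
    rw [div_lt_iff₀ hM0'] at hM
    exact hM.le
  filter_upwards [b1, b2 R₁ a1 a4 p hp, b2 R₂ a2 a5 q hq] with M c1 c2 c3
  have hit : ∀ y : ℕ, (Prod.map S^[p] S^[q])^[y] (x, x) = (S^[p * y] x, S^[q * y] x) := by
    intro y
    rw [Prod.map_iterate, Prod.map_apply, Function.iterate_mul, Function.iterate_mul]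
  have h1 : ∀ y ∈ Icc 1 M, Ψ (S^[p * y] x, S^[q * y] x) ≤
      φ ((Prod.map S^[p] S^[q])^[y] (x, x)) + (R₁ (S^[p * y] x) + R₂ (S^[q * y] x)) := by
    intro y _
    rw [hit]
    have := (abs_le.1 (a3 (S^[p * y] x, S^[q * y] x))).2
    simp only at this
    linarith
  refine (Finset.sum_le_sum h1).trans ?_
  rw [Finset.sum_add_distrib, Finset.sum_add_distrib]
  have : (C + ε) * (M : ℝ) = (C + ε / 3) * M + (ε / 3 * M + ε / 3 * M) := by ring
  rw [this]
  exact add_le_add c1 (add_le_add c2 c3)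

end

end Pool.Agent.Helper47.TW
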