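import Pool.Agent.Helper47.TW.WInf

/-!
Decreasing sequences of affine functionals on the invariant measures, which are uniform limits of
integrals of continuous functions (MP_7a8f48_an, towers).
-/

open MeasureTheory Filter Topology Set TopologicalSpace
open scoped ComplexConjugate BoundedContinuousFunction ENNReal

namespace Pool.Agent.Helper47.TW

section

variable {Z : Type*} [TopologicalSpace Z] [CompactSpace Z] [MetrizableSpace Z]
  [MeasurableSpace Z] [BorelSpace Z]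

/-- `F` is on the invariant measures a uniform limit of integrals of continuous functions -/
def App (τ : Z → Z) (F : Measure Z → ℝ) : Prop := ∀ δ : ℝ, 0 < δ → ∃ φ : Z →ᵇ ℝ,
  ∀ lam : Measure Z, IsProbabilityMeasure lam → MeasurePreserving τ lam lam →
    |F lam - ∫ z, φ z ∂lam| ≤ δ

theorem App.closed {τ : Z → Z} (hτ : Continuous τ) {F : Measure Z → ℝ} (hF : App τ F) (c : ℝ) :
    IsClosed (Inv hτ ∩ {lam : ProbabilityMeasure Z | c ≤ F (lam : Measure Z)}) := by
  choose φ hφ using fun n : ℕ => hF (1 / ((n : ℝ) + 1)) (by positivity)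
  have h1 : Inv hτ ∩ {lam : ProbabilityMeasure Z | c ≤ F (lam : Measure Z)} =
      Inv hτ ∩ ⋂ n : ℕ, {lam : ProbabilityMeasure Z |
        c - 1 / ((n : ℝ) + 1) ≤ ∫ z, φ n z ∂(lam : Measure Z)} := by
    ext lam
    constructor
    · rintro ⟨h2, h3⟩
      refine ⟨h2, mem_iInter.2 fun n => ?_⟩
      have h4 := hφ n lam inferInstance ((mem_Inv hτ lam).1 h2)
      have h3' : c ≤ F (lam : Measure Z) := h3
      have h5 := (abs_le.1 h4).2
      show c - 1 / ((n : ℝ) + 1) ≤ ∫ z, φ n z ∂(lam : Measure Z)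
      linarith
    · rintro ⟨h2, h3⟩
      refine ⟨h2, ?_⟩
      rw [mem_iInter] at h3
      have h6 : ∀ n : ℕ, c - 2 * (1 / ((n : ℝ) + 1)) ≤ F (lam : Measure Z) := by
        intro n
        have h4 := hφ n lam inferInstance ((mem_Inv hτ lam).1 h2)
        have h5 := (abs_le.1 h4).1
        have h7 : c - 1 / ((n : ℝ) + 1) ≤ ∫ z, φ n z ∂(lam : Measure Z) := h3 n
        linarith
      have h8 : Tendsto (fun n : ℕ => c - 2 * (1 / ((n : ℝ) + 1))) atTop (𝓝 c) := by
        have := ((tendsto_one_div_add_atTop_nhds_zero_nat (𝕜 := ℝ)).const_mul 2).const_sub c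
        simpa using this
      exact le_of_tendsto' h8 h6
  rw [h1]
  exact (Inv_closed hτ).inter
    (isClosed_iInter fun n => isClosed_le continuous_const (int_cont (φ n)))

omit [CompactSpace Z] [MetrizableSpace Z] in
theorem App.comb {τ : Z → Z} {F : Measure Z → ℝ} (hF : App τ F) {lam lam1 lam2 : Measure Z}
    (hp : IsProbabilityMeasure lam) (hi : MeasurePreserving τ lam lam)
    (hp1 : IsProbabilityMeasure lam1) (hi1 : MeasurePreserving τ lam1 lam1)
    (hp2 : IsProbabilityMeasure lam2) (hi2 : MeasurePreserving τ lam2 lam2)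
    {a b : ℝ≥0∞} (ha : a ≠ ∞) (hb : b ≠ ∞) (hab : a.toReal + b.toReal = 1)
    (h : a • lam1 + b • lam2 = lam) : F lam = a.toReal * F lam1 + b.toReal * F lam2 := by
  have ha0 : 0 ≤ a.toReal := ENNReal.toReal_nonneg
  have hb0 : 0 ≤ b.toReal := ENNReal.toReal_nonneg
  have h1 : ∀ δ : ℝ, 0 < δ → |F lam - (a.toReal * F lam1 + b.toReal * F lam2)| ≤ 2 * δ := by
    intro δ hδ
    obtain ⟨φ, hφ⟩ := hF δ hδ
    have e0 := abs_le.1 (hφ lam hp hi)
    have e1 := abs_le.1 (hφ lam1 hp1 hi1)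
    have e2 := abs_le.1 (hφ lam2 hp2 hi2)
    have e3 := ig_comb ha hb h φ
    have n1 := mul_le_mul_of_nonneg_left e1.1 ha0
    have n2 := mul_le_mul_of_nonneg_left e1.2 ha0
    have n3 := mul_le_mul_of_nonneg_left e2.1 hb0
    have n4 := mul_le_mul_of_nonneg_left e2.2 hb0
    have e4 : a.toReal * δ + b.toReal * δ = δ := by rw [← add_mul, hab, one_mul]
    rw [abs_le]
    constructor <;> nlinarith
  by_contra hne
  have h2 : 0 < |F lam - (a.toReal * F lam1 + b.toReal * F lam2)| :=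
    abs_pos.2 (sub_ne_zero.2 hne)
  have h3 := h1 _ (div_pos h2 (by norm_num : (0 : ℝ) < 4))
  linarith

omit [CompactSpace Z] [MetrizableSpace Z] in
theorem App.bdd {τ : Z → Z} {F : Measure Z → ℝ} (hF : App τ F) : ∃ C : ℝ, ∀ lam : Measure Z,
    IsProbabilityMeasure lam → MeasurePreserving τ lam lam → F lam ≤ C := by
  obtain ⟨φ, hφ⟩ := hF 1 one_pos
  refine ⟨‖φ‖ + 1, fun lam hp hi => ?_⟩
  have h1 := (abs_le.1 (hφ lam hp hi)).2
  have h2 := norm_integral_le_of_norm_le_const (μ := lam) (f := fun z => φ z) (C := ‖φ‖)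
    (Eventually.of_forall fun z => φ.norm_coe_le_norm z)
  have h3 : ∫ z, φ z ∂lam ≤ ‖φ‖ := (le_abs_self _).trans (by simpa using h2)
  linarith

variable {τ : Z → Z} (hτ : Continuous τ) (F : ℕ → Measure Z → ℝ) (hF : ∀ j, App τ (F j))
  (hanti : ∀ lam : Measure Z, IsProbabilityMeasure lam → MeasurePreserving τ lam lam →
      Antitone fun j => F j lam)

include hτ hF hanti

/-- a common invariant measure for a decreasing sequence -/
theorem exists_inv_allF (c : ℕ → ℝ) (hcm : Monotone c) (hne : ∀ j,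
      ∃ lam : Measure Z, IsProbabilityMeasure lam ∧ MeasurePreserving τ lam lam ∧
        c j ≤ F j lam) :
    ∃ lam : Measure Z, IsProbabilityMeasure lam ∧ MeasurePreserving τ lam lam ∧
      ∀ j, c j ≤ F j lam := by
  let K : ℕ → Set (ProbabilityMeasure Z) := fun j =>
    Inv hτ ∩ {lam | c j ≤ F j (lam : Measure Z)}
  have hcl : ∀ j, IsClosed (K j) := fun j => (hF j).closed hτ (c j)
  have hdec : ∀ j, K (j + 1) ⊆ K j := by
    intro j lam hlam
    refine ⟨hlam.1, ?_⟩
    have h1 := hanti _ inferInstance ((mem_Inv hτ lam).1 hlam.1) (Nat.le_succ j)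
    have h2 : c (j + 1) ≤ F (j + 1) (lam : Measure Z) := hlam.2
    exact (hcm (Nat.le_succ j)).trans (h2.trans h1)
  have hn : ∀ j, (K j).Nonempty := by
    intro j
    obtain ⟨lam, hp, hi, h⟩ := hne j
    exact ⟨⟨lam, hp⟩, (mem_Inv hτ _).2 hi, h⟩
  obtain ⟨lam, hlam⟩ := IsCompact.nonempty_iInter_of_sequence_nonempty_isCompact_isClosed K hdec hn
    (hcl 0).isCompact hcl
  rw [mem_iInter] at hlam
  exact ⟨lam, inferInstance, (mem_Inv hτ lam).1 (hlam 0).1, fun j => (hlam j).2⟩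

/-- the maximum of the limits of a decreasing sequence of functionals on the invariant
measures is attained at an ergodic measure -/
theorem exists_ergodic_infF (lam0 : Measure Z)
    [IsProbabilityMeasure lam0] (h0 : MeasurePreserving τ lam0 lam0) (m : ℝ)
    (hm : ∀ lam : Measure Z, IsProbabilityMeasure lam → MeasurePreserving τ lam lam →
      ∀ j, m ≤ F j lam) (c : ℝ) (hc : ∀ j, c ≤ F j lam0) :
    ∃ lam : Measure Z, IsProbabilityMeasure lam ∧ Ergodic τ lam ∧ ∀ j, c ≤ F j lam := by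
  -- the maximum
  let A : Set ℝ := {x | ∃ lam : Measure Z, IsProbabilityMeasure lam ∧
    MeasurePreserving τ lam lam ∧ ∀ j, x ≤ F j lam}
  have hcA : c ∈ A := ⟨lam0, inferInstance, h0, hc⟩
  have hAb : BddAbove A := by
    obtain ⟨C, hC⟩ := (hF 0).bdd
    refine ⟨C, ?_⟩
    rintro x ⟨lam, hp, hi, hx⟩
    exact (hx 0).trans (hC lam hp hi)
  obtain ⟨μ, hμp, hμi, hμ⟩ := exists_inv_allF hτ F hF hanti
    (fun j => sSup A - 1 / ((j : ℝ) + 1)) (fun i j hij => by
      have h1 : 1 / ((j : ℝ) + 1) ≤ 1 / ((i : ℝ) + 1) := by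
        apply one_div_le_one_div_of_le (by positivity)
        have : (i : ℝ) ≤ j := by exact_mod_cast hij
        linarith
      show sSup A - 1 / ((i : ℝ) + 1) ≤ sSup A - 1 / ((j : ℝ) + 1)
      linarith) (fun j => by
      have h1 : sSup A - 1 / ((j : ℝ) + 1) < sSup A := by
        have : (0 : ℝ) < 1 / ((j : ℝ) + 1) := by positivity
        linarith
      obtain ⟨x, ⟨lam, hp, hi, hx⟩, hx2⟩ := exists_lt_of_lt_csSup ⟨c, hcA⟩ h1
      exact ⟨lam, hp, hi, hx2.le.trans (hx j)⟩)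
  have hμ' : ∀ j, sSup A ≤ F j μ := by
    intro j
    refine le_of_tendsto_of_tendsto' (b := atTop) (f := fun i : ℕ => sSup A - 1 / ((i : ℝ) + 1))
      (g := fun _ => F j μ) ?_ tendsto_const_nhds ?_
    · have := (tendsto_one_div_add_atTop_nhds_zero_nat (𝕜 := ℝ)).const_sub (sSup A)
      simpa using this
    · intro i
      by_cases hij : i ≤ j
      · have h1 := hμ j
        have h2 : 1 / ((j : ℝ) + 1) ≤ 1 / ((i : ℝ) + 1) := by
          apply one_div_le_one_div_of_le (by positivity)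
          have : (i : ℝ) ≤ j := by exact_mod_cast hij
          linarith
        linarith
      · exact (hμ i).trans (hanti μ hμp hμi (not_le.1 hij).le)
  have hmax : ∀ lam : Measure Z, IsProbabilityMeasure lam → MeasurePreserving τ lam lam →
      ∀ x, (∀ j, x ≤ F j lam) → x ≤ sSup A := fun lam hp hi x hx =>
    le_csSup hAb ⟨lam, hp, hi, hx⟩
  let KK : Set (ProbabilityMeasure Z) :=
    ⋂ j, (Inv hτ ∩ {lam : ProbabilityMeasure Z | sSup A ≤ F j (lam : Measure Z)})
  have hKcl : IsClosed KK := isClosed_iInter fun j => (hF j).closed hτ _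
  have hKne : KK.Nonempty :=
    ⟨⟨μ, hμp⟩, mem_iInter.2 fun j => ⟨(mem_Inv hτ _).2 hμi, hμ' j⟩⟩
  obtain ⟨x, hx⟩ := (hKcl.isCompact.image ig_cont).extremePoints_nonempty (hKne.image ig)
  obtain ⟨lam, hlam, rfl⟩ := hx.1
  have hlam2 : ∀ j, sSup A ≤ F j (lam : Measure Z) := fun j => (mem_iInter.1 hlam j).2
  have hlami : MeasurePreserving τ (lam : Measure Z) (lam : Measure Z) :=
    (mem_Inv hτ lam).1 (mem_iInter.1 hlam 0).1
  refine ⟨lam, inferInstance, Ergodic.of_mem_extremePoints ?_, fun j =>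
    (le_csSup hAb hcA).trans (hlam2 j)⟩
  rw [mem_extremePoints_iff_left]
  refine ⟨⟨hlami, inferInstance⟩, ?_⟩
  rintro lam1 ⟨h1, h1p⟩ lam2 ⟨h2, h2p⟩ ⟨a, b, ha, hb, hab, hc⟩
  have ha1 : a ≠ ∞ := by
    rintro rfl
    simp at hab
  have hb1 : b ≠ ∞ := by
    rintro rfl
    simp at hab
  have hab' : a.toReal + b.toReal = 1 := by
    rw [← ENNReal.toReal_add ha1 hb1, hab, ENNReal.toReal_one]
  have ha' : 0 < a.toReal := ENNReal.toReal_pos ha.ne' ha1
  have hb' : 0 < b.toReal := ENNReal.toReal_pos hb.ne' hb1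
  let l1 : ProbabilityMeasure Z := ⟨lam1, h1p⟩
  let l2 : ProbabilityMeasure Z := ⟨lam2, h2p⟩
  have hl1 : l1 ∈ Inv hτ := (mem_Inv hτ l1).2 h1
  have hl2 : l2 ∈ Inv hτ := (mem_Inv hτ l2).2 h2
  -- the limits
  have lim1 := tendsto_atTop_ciInf (hanti lam1 h1p h1) ⟨m, by
    rintro _ ⟨j, rfl⟩
    exact hm lam1 h1p h1 j⟩
  have lim2 := tendsto_atTop_ciInf (hanti lam2 h2p h2) ⟨m, by
    rintro _ ⟨j, rfl⟩
    exact hm lam2 h2p h2 j⟩
  have inf1 : ∀ j, (⨅ j, F j lam1) ≤ F j lam1 := fun j =>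
    ciInf_le ⟨m, by rintro _ ⟨j, rfl⟩; exact hm lam1 h1p h1 j⟩ j
  have inf2 : ∀ j, (⨅ j, F j lam2) ≤ F j lam2 := fun j =>
    ciInf_le ⟨m, by rintro _ ⟨j, rfl⟩; exact hm lam2 h2p h2 j⟩ j
  have m1 := hmax lam1 h1p h1 _ inf1
  have m2 := hmax lam2 h2p h2 _ inf2
  have e1 : sSup A ≤ a.toReal * (⨅ j, F j lam1) + b.toReal * (⨅ j, F j lam2) := by
    refine ge_of_tendsto' ((lim1.const_mul a.toReal).add (lim2.const_mul b.toReal)) fun j => ?_
    rw [← (hF j).comb inferInstance hlami h1p h1 h2p h2 ha1 hb1 hab' hc]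
    exact hlam2 j
  have e3 : a.toReal * sSup A + b.toReal * sSup A = sSup A := by rw [← add_mul, hab', one_mul]
  have m1' : sSup A ≤ ⨅ j, F j lam1 := by
    by_contra hlt
    push Not at hlt
    have n1 := mul_lt_mul_of_pos_left hlt ha'
    have n2 := mul_le_mul_of_nonneg_left m2 hb'.le
    linarith
  have m2' : sSup A ≤ ⨅ j, F j lam2 := by
    by_contra hlt
    push Not at hlt
    have n1 := mul_lt_mul_of_pos_left hlt hb'
    have n2 := mul_le_mul_of_nonneg_left m1 ha'.le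
    linarith
  have k1 : ig l1 ∈ ig '' KK := ⟨l1, mem_iInter.2 fun j => ⟨hl1, m1'.trans (inf1 j)⟩, rfl⟩
  have k2 : ig l2 ∈ ig '' KK := ⟨l2, mem_iInter.2 fun j => ⟨hl2, m2'.trans (inf2 j)⟩, rfl⟩
  have k3 : ig lam ∈ openSegment ℝ (ig l1) (ig l2) := by
    refine ⟨a.toReal, b.toReal, ha', hb', hab', ?_⟩
    ext f
    rw [Pi.add_apply, Pi.smul_apply, Pi.smul_apply, smul_eq_mul, smul_eq_mul]
    exact (ig_comb ha1 hb1 hc f).symm
  have k4 := (mem_extremePoints_iff_left.1 hx).2 _ k1 _ k2 k3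
  exact congrArg (fun x : ProbabilityMeasure Z => (x : Measure Z)) (ig_inj k4)

/-- **Uniform bound.** -/
theorem unif_boundF (m : ℝ)
    (hm : ∀ lam : Measure Z, IsProbabilityMeasure lam → MeasurePreserving τ lam lam →
      ∀ j, m ≤ F j lam) (c : ℝ)
    (hc : ∀ lam : Measure Z, IsProbabilityMeasure lam → Ergodic τ lam → ∃ j, F j lam < c) :
    ∃ j₀, ∀ j ≥ j₀, ∀ lam : Measure Z, IsProbabilityMeasure lam → MeasurePreserving τ lam lam →
      F j lam < c := by
  have h1 : ∃ j, ∀ lam : Measure Z, IsProbabilityMeasure lam → MeasurePreserving τ lam lam →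
      F j lam < c := by
    by_contra hcon
    push Not at hcon
    obtain ⟨lam, hp, hi, hl⟩ := exists_inv_allF hτ F hF hanti (fun _ => c) monotone_const hcon
    obtain ⟨lam', hp', he', hl'⟩ := exists_ergodic_infF hτ F hF hanti lam hi m hm c hl
    obtain ⟨j, hj⟩ := hc lam' hp' he'
    exact absurd (hl' j) (not_le.2 hj)
  obtain ⟨j, hj⟩ := h1
  exact ⟨j, fun j' hjj lam hp hi => (hanti lam hp hi hjj).trans_lt (hj lam hp hi)⟩

end

end Pool.Agent.Helper47.TW
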