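import Pool.Agent.Helper47.TW.WLim

/-!
Decreasing sequences of continuous functionals on the invariant measures (MP_7a8f48_an, towers).
-/

open MeasureTheory Filter Topology Set TopologicalSpace
open scoped ComplexConjugate BoundedContinuousFunction ENNReal

namespace Pool.Agent.Helper47.TW

section

variable {Z : Type*} [TopologicalSpace Z] [CompactSpace Z] [MetrizableSpace Z]
  [MeasurableSpace Z] [BorelSpace Z]

omit [CompactSpace Z] [MetrizableSpace Z] in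
theorem int_cont (f : Z →ᵇ ℝ) :
    Continuous fun lam : ProbabilityMeasure Z => ∫ z, f z ∂(lam : Measure Z) :=
  (continuous_apply f).comp ig_cont

/-- the invariant measures -/
def Inv {τ : Z → Z} (hτ : Continuous τ) : Set (ProbabilityMeasure Z) :=
  {lam | lam.map hτ.measurable.aemeasurable = lam}

omit [CompactSpace Z] in
theorem Inv_closed {τ : Z → Z} (hτ : Continuous τ) : IsClosed (Inv hτ) :=
  isClosed_eq (ProbabilityMeasure.continuous_map hτ) continuous_id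

omit [CompactSpace Z] [MetrizableSpace Z] in
theorem mem_Inv {τ : Z → Z} (hτ : Continuous τ) (lam : ProbabilityMeasure Z) :
    lam ∈ Inv hτ ↔ MeasurePreserving τ (lam : Measure Z) (lam : Measure Z) := by
  constructor
  · intro h
    exact ⟨hτ.measurable, congrArg (fun x : ProbabilityMeasure Z => (x : Measure Z)) h⟩
  · intro h
    exact Subtype.ext h.map_eq

/-- a common invariant measure for a decreasing sequence -/
theorem exists_inv_all {τ : Z → Z} (hτ : Continuous τ) (φ : ℕ → (Z →ᵇ ℝ))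
    (hanti : ∀ lam : Measure Z, IsProbabilityMeasure lam → MeasurePreserving τ lam lam →
      Antitone fun j => ∫ z, φ j z ∂lam) (c : ℕ → ℝ) (hcm : Monotone c) (hne : ∀ j,
      ∃ lam : Measure Z, IsProbabilityMeasure lam ∧ MeasurePreserving τ lam lam ∧
        c j ≤ ∫ z, φ j z ∂lam) :
    ∃ lam : Measure Z, IsProbabilityMeasure lam ∧ MeasurePreserving τ lam lam ∧
      ∀ j, c j ≤ ∫ z, φ j z ∂lam := by
  let K : ℕ → Set (ProbabilityMeasure Z) := fun j =>
    Inv hτ ∩ {lam | c j ≤ ∫ z, φ j z ∂(lam : Measure Z)}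
  have hcl : ∀ j, IsClosed (K j) := fun j =>
    (Inv_closed hτ).inter (isClosed_le continuous_const (int_cont (φ j)))
  have hdec : ∀ j, K (j + 1) ⊆ K j := by
    intro j lam hlam
    refine ⟨hlam.1, ?_⟩
    have h1 := hanti _ inferInstance ((mem_Inv hτ lam).1 hlam.1) (Nat.le_succ j)
    have h2 : c (j + 1) ≤ ∫ z, φ (j + 1) z ∂(lam : Measure Z) := hlam.2
    exact (hcm (Nat.le_succ j)).trans (h2.trans h1)
  have hn : ∀ j, (K j).Nonempty := by
    intro j
    obtain ⟨lam, hp, hi, h⟩ := hne j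
    exact ⟨⟨lam, hp⟩, (mem_Inv hτ _).2 hi, h⟩
  obtain ⟨lam, hlam⟩ := IsCompact.nonempty_iInter_of_sequence_nonempty_isCompact_isClosed K hdec hn
    (hcl 0).isCompact hcl
  rw [mem_iInter] at hlam
  exact ⟨lam, inferInstance, (mem_Inv hτ lam).1 (hlam 0).1, fun j => (hlam j).2⟩

/-- the maximum of the limits of a decreasing sequence of continuous functionals on the invariant
measures is attained at an ergodic measure -/
theorem exists_ergodic_inf {τ : Z → Z} (hτ : Continuous τ) (lam0 : Measure Z)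
    [IsProbabilityMeasure lam0] (h0 : MeasurePreserving τ lam0 lam0) (φ : ℕ → (Z →ᵇ ℝ))
    (hanti : ∀ lam : Measure Z, IsProbabilityMeasure lam → MeasurePreserving τ lam lam →
      Antitone fun j => ∫ z, φ j z ∂lam) (m : ℝ)
    (hm : ∀ lam : Measure Z, IsProbabilityMeasure lam → MeasurePreserving τ lam lam →
      ∀ j, m ≤ ∫ z, φ j z ∂lam) (c : ℝ) (hc : ∀ j, c ≤ ∫ z, φ j z ∂lam0) :
    ∃ lam : Measure Z, IsProbabilityMeasure lam ∧ Ergodic τ lam ∧ ∀ j, c ≤ ∫ z, φ j z ∂lam := by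
  -- the maximum
  let A : Set ℝ := {x | ∃ lam : Measure Z, IsProbabilityMeasure lam ∧
    MeasurePreserving τ lam lam ∧ ∀ j, x ≤ ∫ z, φ j z ∂lam}
  have hcA : c ∈ A := ⟨lam0, inferInstance, h0, hc⟩
  have hAb : BddAbove A := by
    refine ⟨‖φ 0‖, ?_⟩
    rintro x ⟨lam, hp, -, hx⟩
    refine (hx 0).trans ?_
    refine (le_abs_self _).trans ?_
    have h1 := norm_integral_le_of_norm_le_const (μ := lam) (f := fun z => φ 0 z) (C := ‖φ 0‖)
      (Eventually.of_forall fun z => (φ 0).norm_coe_le_norm z)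
    simpa using h1
  obtain ⟨μ, hμp, hμi, hμ⟩ := exists_inv_all hτ φ hanti
    (fun j => sSup A - 1 / ((j : ℝ) + 1)) (fun i j hij => by
      have h1 : 1 / ((j : ℝ) + 1) ≤ 1 / ((i : ℝ) + 1) := by
        apply one_div_le_one_div_of_le (by positivity)
        have : (i : ℝ) ≤ j := by exact_mod_cast hij
        linarith
      show sSup A - 1 / ((i : ℝ) + 1) ≤ sSup A - 1 / ((j : ℝ) + 1)
      linarith) (fun j => by
      have h1 : sSup A - 1 / ((j : ℝ) + 1) < sSup A := by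
        have : (0 : ℝ) < 1 / ((j : ℝ) + 1) := by positivity
        linarith
      obtain ⟨x, ⟨lam, hp, hi, hx⟩, hx2⟩ := exists_lt_of_lt_csSup ⟨c, hcA⟩ h1
      exact ⟨lam, hp, hi, hx2.le.trans (hx j)⟩)
  have hμ' : ∀ j, sSup A ≤ ∫ z, φ j z ∂μ := by
    intro j
    refine le_of_tendsto_of_tendsto' (b := atTop) (f := fun i : ℕ => sSup A - 1 / ((i : ℝ) + 1))
      (g := fun _ => ∫ z, φ j z ∂μ) ?_ tendsto_const_nhds ?_
    · have := (tendsto_one_div_add_atTop_nhds_zero_nat (𝕜 := ℝ)).const_sub (sSup A)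
      simpa using this
    · intro i
      by_cases hij : i ≤ j
      · have h1 := hμ j
        have h2 : 1 / ((j : ℝ) + 1) ≤ 1 / ((i : ℝ) + 1) := by
          apply one_div_le_one_div_of_le (by positivity)
          have : (i : ℝ) ≤ j := by exact_mod_cast hij
          linarith
        linarith
      · exact (hμ i).trans (hanti μ hμp hμi (not_le.1 hij).le)
  have hmax : ∀ lam : Measure Z, IsProbabilityMeasure lam → MeasurePreserving τ lam lam →
      ∀ x, (∀ j, x ≤ ∫ z, φ j z ∂lam) → x ≤ sSup A := fun lam hp hi x hx =>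
    le_csSup hAb ⟨lam, hp, hi, hx⟩
  let KK : Set (ProbabilityMeasure Z) := Inv hτ ∩ ⋂ j, {lam | sSup A ≤ ∫ z, φ j z ∂(lam : Measure Z)}
  have hKcl : IsClosed KK := (Inv_closed hτ).inter
    (isClosed_iInter fun j => isClosed_le continuous_const (int_cont (φ j)))
  have hKne : KK.Nonempty := ⟨⟨μ, hμp⟩, (mem_Inv hτ _).2 hμi, mem_iInter.2 hμ'⟩
  obtain ⟨x, hx⟩ := (hKcl.isCompact.image ig_cont).extremePoints_nonempty (hKne.image ig)
  obtain ⟨lam, hlam, rfl⟩ := hx.1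
  have hlam2 : ∀ j, sSup A ≤ ∫ z, φ j z ∂(lam : Measure Z) := mem_iInter.1 hlam.2
  refine ⟨lam, inferInstance, Ergodic.of_mem_extremePoints ?_, fun j =>
    (le_csSup hAb hcA).trans (hlam2 j)⟩
  rw [mem_extremePoints_iff_left]
  refine ⟨⟨(mem_Inv hτ lam).1 hlam.1, inferInstance⟩, ?_⟩
  rintro lam1 ⟨h1, h1p⟩ lam2 ⟨h2, h2p⟩ ⟨a, b, ha, hb, hab, hc⟩
  have ha1 : a ≠ ∞ := by
    rintro rfl
    simp at hab
  have hb1 : b ≠ ∞ := by
    rintro rfl
    simp at hab
  have hab' : a.toReal + b.toReal = 1 := by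
    rw [← ENNReal.toReal_add ha1 hb1, hab, ENNReal.toReal_one]
  have ha' : 0 < a.toReal := ENNReal.toReal_pos ha.ne' ha1
  have hb' : 0 < b.toReal := ENNReal.toReal_pos hb.ne' hb1
  let l1 : ProbabilityMeasure Z := ⟨lam1, h1p⟩
  let l2 : ProbabilityMeasure Z := ⟨lam2, h2p⟩
  have hl1 : l1 ∈ Inv hτ := (mem_Inv hτ l1).2 h1
  have hl2 : l2 ∈ Inv hτ := (mem_Inv hτ l2).2 h2
  -- the limits
  have lim1 := tendsto_atTop_ciInf (hanti lam1 h1p h1) ⟨m, by
    rintro _ ⟨j, rfl⟩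
    exact hm lam1 h1p h1 j⟩
  have lim2 := tendsto_atTop_ciInf (hanti lam2 h2p h2) ⟨m, by
    rintro _ ⟨j, rfl⟩
    exact hm lam2 h2p h2 j⟩
  have inf1 : ∀ j, (⨅ j, ∫ z, φ j z ∂lam1) ≤ ∫ z, φ j z ∂lam1 := fun j =>
    ciInf_le ⟨m, by rintro _ ⟨j, rfl⟩; exact hm lam1 h1p h1 j⟩ j
  have inf2 : ∀ j, (⨅ j, ∫ z, φ j z ∂lam2) ≤ ∫ z, φ j z ∂lam2 := fun j =>
    ciInf_le ⟨m, by rintro _ ⟨j, rfl⟩; exact hm lam2 h2p h2 j⟩ j
  have m1 := hmax lam1 h1p h1 _ inf1
  have m2 := hmax lam2 h2p h2 _ inf2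
  have e1 : sSup A ≤ a.toReal * (⨅ j, ∫ z, φ j z ∂lam1) + b.toReal * (⨅ j, ∫ z, φ j z ∂lam2) := by
    refine ge_of_tendsto' ((lim1.const_mul a.toReal).add (lim2.const_mul b.toReal)) fun j => ?_
    rw [← ig_comb ha1 hb1 hc (φ j)]
    exact hlam2 j
  have e3 : a.toReal * sSup A + b.toReal * sSup A = sSup A := by rw [← add_mul, hab', one_mul]
  have m1' : sSup A ≤ ⨅ j, ∫ z, φ j z ∂lam1 := by
    by_contra hlt
    push Not at hlt
    have n1 := mul_lt_mul_of_pos_left hlt ha'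
    have n2 := mul_le_mul_of_nonneg_left m2 hb'.le
    linarith
  have m2' : sSup A ≤ ⨅ j, ∫ z, φ j z ∂lam2 := by
    by_contra hlt
    push Not at hlt
    have n1 := mul_lt_mul_of_pos_left hlt hb'
    have n2 := mul_le_mul_of_nonneg_left m1 ha'.le
    linarith
  have k1 : ig l1 ∈ ig '' KK := ⟨l1, ⟨hl1, mem_iInter.2 fun j => m1'.trans (inf1 j)⟩, rfl⟩
  have k2 : ig l2 ∈ ig '' KK := ⟨l2, ⟨hl2, mem_iInter.2 fun j => m2'.trans (inf2 j)⟩, rfl⟩
  have k3 : ig lam ∈ openSegment ℝ (ig l1) (ig l2) := by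
    refine ⟨a.toReal, b.toReal, ha', hb', hab', ?_⟩
    ext f
    rw [Pi.add_apply, Pi.smul_apply, Pi.smul_apply, smul_eq_mul, smul_eq_mul]
    exact (ig_comb ha1 hb1 hc f).symm
  have k4 := (mem_extremePoints_iff_left.1 hx).2 _ k1 _ k2 k3
  exact congrArg (fun x : ProbabilityMeasure Z => (x : Measure Z)) (ig_inj k4)

/-- the limit of the empirical measures along an ultrafilter -/
theorem exists_limit {τ : Z → Z} (hτ : Continuous τ) (z₀ : Z) (V : Ultrafilter ℕ)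
    (hV1 : (V : Filter ℕ) ≤ atTop) :
    ∃ lam : Measure Z, IsProbabilityMeasure lam ∧ MeasurePreserving τ lam lam ∧
      ∀ f : Z →ᵇ ℝ, Tendsto
        (fun N : ℕ => (∑ n ∈ Finset.Icc 1 (N + 1), f (τ^[n] z₀)) / ((N + 1 : ℕ) : ℝ)) V
        (𝓝 (∫ z, f z ∂lam)) := by
  obtain ⟨lam, -, hlam⟩ := (isCompact_univ (X := ProbabilityMeasure Z)).ultrafilter_le_nhds
    (V.map (emp τ z₀)) (by simp)
  have hlim : Tendsto (emp τ z₀) V (𝓝 lam) := hlam
  have hint : ∀ f : Z →ᵇ ℝ, Tendsto (fun N => ∫ z, f z ∂(emp τ z₀ N : Measure Z)) V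
      (𝓝 (∫ z, f z ∂(lam : Measure Z))) :=
    ProbabilityMeasure.tendsto_iff_forall_integral_tendsto.1 hlim
  refine ⟨lam, inferInstance, ⟨hτ.measurable, ?_⟩, fun f => ?_⟩
  · refine ext_of_forall_integral_eq_of_IsFiniteMeasure fun f => ?_
    rw [integral_map hτ.measurable.aemeasurable f.continuous.aestronglyMeasurable]
    let g : Z →ᵇ ℝ := f.compContinuous ⟨τ, hτ⟩
    have h1 := (hint g).sub (hint f)
    have h2 : Tendsto (fun N => (∫ z, g z ∂(emp τ z₀ N : Measure Z)) -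
        ∫ z, f z ∂(emp τ z₀ N : Measure Z)) V (𝓝 0) := by
      refine (squeeze_zero_norm (a := fun N : ℕ => (2 * ‖f‖) / ((N + 1 : ℕ) : ℝ)) ?_ ?_).mono_left
        hV1
      · intro N
        rw [emp_integral_real, emp_integral_real, ← sub_div, ← Finset.sum_sub_distrib]
        have h3 : ∑ n ∈ Finset.Icc 1 (N + 1), (g (τ^[n] z₀) - f (τ^[n] z₀)) =
            f (τ^[N + 2] z₀) - f (τ^[1] z₀) := by
          have h4 : ∀ n, g (τ^[n] z₀) = f (τ^[n + 1] z₀) := fun n => by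
            rw [Function.iterate_succ_apply']
            rfl
          simp only [h4]
          exact tele (fun n => f (τ^[n] z₀)) N
        rw [h3, norm_div, Real.norm_natCast]
        gcongr
        calc ‖f (τ^[N + 2] z₀) - f (τ^[1] z₀)‖ ≤ ‖f (τ^[N + 2] z₀)‖ + ‖f (τ^[1] z₀)‖ :=
            norm_sub_le _ _
          _ ≤ ‖f‖ + ‖f‖ := add_le_add (f.norm_coe_le_norm _) (f.norm_coe_le_norm _)
          _ = 2 * ‖f‖ := by ring
      · refine Tendsto.div_atTop tendsto_const_nhds ?_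
        exact tendsto_natCast_atTop_atTop.comp (tendsto_add_atTop_nat 1)
    exact sub_eq_zero.1 (tendsto_nhds_unique h1 h2)
  · refine (hint f).congr fun N => ?_
    exact emp_integral_real τ z₀ N f

/-- averages of a continuous function along an orbit, one sided -/
theorem wlim_real {τ : Z → Z} (hτ : Continuous τ) (φ : Z →ᵇ ℝ) (c : ℝ)
    (hc : ∀ lam : Measure Z, IsProbabilityMeasure lam → MeasurePreserving τ lam lam →
      ∫ z, φ z ∂lam < c) (z₀ : Z) :
    ∀ᶠ N : ℕ in atTop, ∑ n ∈ Finset.Icc 1 N, φ (τ^[n] z₀) ≤ c * N := by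
  by_contra hcon
  have hfr : ∃ᶠ N : ℕ in atTop, c * ((N + 1 : ℕ) : ℝ) <
      ∑ n ∈ Finset.Icc 1 (N + 1), φ (τ^[n] z₀) := by
    rw [Filter.not_eventually] at hcon
    rw [Filter.frequently_atTop] at hcon ⊢
    intro a
    obtain ⟨b, hb, hb2⟩ := hcon (a + 1)
    obtain ⟨b', rfl⟩ : ∃ b', b = b' + 1 := ⟨b - 1, by omega⟩
    exact ⟨b', by omega, not_le.1 hb2⟩
  have hne : (atTop ⊓ 𝓟 {N : ℕ | c * ((N + 1 : ℕ) : ℝ) <
      ∑ n ∈ Finset.Icc 1 (N + 1), φ (τ^[n] z₀)}).NeBot := Filter.frequently_mem_iff_neBot.1 hfr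
  let V : Ultrafilter ℕ := Ultrafilter.of (atTop ⊓ 𝓟 {N : ℕ | c * ((N + 1 : ℕ) : ℝ) <
      ∑ n ∈ Finset.Icc 1 (N + 1), φ (τ^[n] z₀)})
  have hV := Ultrafilter.of_le (atTop ⊓ 𝓟 {N : ℕ | c * ((N + 1 : ℕ) : ℝ) <
      ∑ n ∈ Finset.Icc 1 (N + 1), φ (τ^[n] z₀)})
  have hV2 : ∀ᶠ N : ℕ in (V : Filter ℕ), c * ((N + 1 : ℕ) : ℝ) <
      ∑ n ∈ Finset.Icc 1 (N + 1), φ (τ^[n] z₀) := hV.trans inf_le_right (mem_principal_self _)
  obtain ⟨lam, hp, hi, hl⟩ := exists_limit hτ z₀ V (hV.trans inf_le_left)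
  have h1 : c ≤ ∫ z, φ z ∂lam := by
    refine ge_of_tendsto (hl φ) ?_
    filter_upwards [hV2] with N hN
    rw [le_div_iff₀ (by positivity)]
    exact hN.le
  exact absurd (hc lam hp hi) (not_lt.2 h1)

/-- **Uniform bound.** If a decreasing sequence of continuous functionals has limit `< c` at all
ergodic measures, then one of the functionals is `< c` at all invariant measures, and the averages
along all orbits are eventually at most `c`. -/
theorem unif_bound {τ : Z → Z} (hτ : Continuous τ) (φ : ℕ → (Z →ᵇ ℝ))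
    (hanti : ∀ lam : Measure Z, IsProbabilityMeasure lam → MeasurePreserving τ lam lam →
      Antitone fun j => ∫ z, φ j z ∂lam) (m : ℝ)
    (hm : ∀ lam : Measure Z, IsProbabilityMeasure lam → MeasurePreserving τ lam lam →
      ∀ j, m ≤ ∫ z, φ j z ∂lam) (c : ℝ)
    (hc : ∀ lam : Measure Z, IsProbabilityMeasure lam → Ergodic τ lam →
      ∃ j, ∫ z, φ j z ∂lam < c) :
    ∃ j, (∀ lam : Measure Z, IsProbabilityMeasure lam → MeasurePreserving τ lam lam →
      ∫ z, φ j z ∂lam < c) ∧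
      ∀ z₀ : Z, ∀ᶠ N : ℕ in atTop, ∑ n ∈ Finset.Icc 1 N, φ j (τ^[n] z₀) ≤ c * N := by
  have h1 : ∃ j, ∀ lam : Measure Z, IsProbabilityMeasure lam → MeasurePreserving τ lam lam →
      ∫ z, φ j z ∂lam < c := by
    by_contra hcon
    push Not at hcon
    obtain ⟨lam, hp, hi, hl⟩ := exists_inv_all hτ φ hanti (fun _ => c) monotone_const hcon
    obtain ⟨lam', hp', he', hl'⟩ := exists_ergodic_inf hτ lam hi φ hanti m hm c hl
    obtain ⟨j, hj⟩ := hc lam' hp' he'
    exact absurd (hl' j) (not_le.2 hj)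
  obtain ⟨j, hj⟩ := h1
  exact ⟨j, hj, fun z₀ => wlim_real hτ (φ j) c hj z₀⟩

end

end Pool.Agent.Helper47.TW
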